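import Pool.Agent.H807R2.Dav1

set_option autoImplicit false

/-! Random families of integers have few large Fourier coefficients. -/

namespace Pool.Agent.V7H38.EH
open Finset
open Pool.Agent.H807R2.Dav

/-- exponential moments of a bounded centred function -/
lemma exp_moment {α : Type} [Fintype α] (f : α → ℝ) (hf : ∀ a, |f a| ≤ 2) (h0 : ∑ a, f a = 0) (l : ℝ) (hl0 : 0 ≤ l)
    (hl : 2 * l ≤ 1) : ∑ a, Real.exp (l * f a) ≤ Fintype.card α * Real.exp (4 * l ^ 2) := by
  have h1 : ∀ a, Real.exp (l * f a) ≤ 1 + l * f a + 4 * l ^ 2 := by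
    intro a
    have h2 : |l * f a| ≤ 2 * l := by
      rw [abs_mul, abs_of_nonneg hl0, mul_comm 2 l]
      exact mul_le_mul_of_nonneg_left (hf a) hl0
    have h3 := Real.abs_exp_sub_one_sub_id_le (h2.trans hl)
    have h4 : (l * f a) ^ 2 ≤ 4 * l ^ 2 := by
      rw [← sq_abs]
      calc |l * f a| ^ 2 ≤ (2 * l) ^ 2 := pow_le_pow_left₀ (abs_nonneg _) h2 2
        _ = _ := by ring
    have h5 := (abs_le.1 h3).2
    linarith
  calc ∑ a, Real.exp (l * f a) ≤ ∑ a, (1 + l * f a + 4 * l ^ 2) := sum_le_sum fun a _ => h1 a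
    _ = Fintype.card α * (1 + 4 * l ^ 2) := by
        rw [sum_add_distrib, sum_add_distrib, ← mul_sum, h0]
        simp only [sum_const, card_univ, nsmul_eq_mul]
        ring
    _ ≤ _ := by
        apply mul_le_mul_of_nonneg_left _ (Nat.cast_nonneg _)
        have := Real.add_one_le_exp (4 * l ^ 2)
        linarith

/-- large deviations -/
lemma tail {α : Type} [Fintype α] (m : ℕ) (f : α → ℝ) (hf : ∀ a, |f a| ≤ 2) (h0 : ∑ a, f a = 0) (r : ℝ) (hr0 : 0 ≤ r)
    (hr : r ≤ 4) : ((univ.filter (fun w : Fin m → α => r * m < ∑ i, f (w i))).card : ℝ) ≤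
      (Fintype.card α : ℝ) ^ m * Real.exp (-(r ^ 2 * m / 16)) := by
  classical
  obtain ⟨l, hl⟩ : ∃ l, l = r / 8 := ⟨_, rfl⟩
  have hl0 : 0 ≤ l := by rw [hl]; positivity
  have h1 : ((univ.filter (fun w : Fin m → α => r * m < ∑ i, f (w i))).card : ℝ) * Real.exp (l * (r * m)) ≤
      ∑ w : Fin m → α, Real.exp (l * ∑ i, f (w i)) := by
    rw [← nsmul_eq_mul, ← sum_const]
    refine le_trans (sum_le_sum fun w hw => ?_)
      (sum_le_sum_of_subset_of_nonneg (filter_subset (fun w : Fin m → α => r * m < ∑ i, f (w i)) univ)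
        (fun w _ _ => (Real.exp_pos (l * ∑ i, f (w i))).le))
    apply Real.exp_le_exp.2
    exact mul_le_mul_of_nonneg_left (mem_filter.1 hw).2.le hl0
  have h2 : ∑ w : Fin m → α, Real.exp (l * ∑ i, f (w i)) = (∑ a, Real.exp (l * f a)) ^ m := by
    rw [Fintype.sum_pow]
    apply sum_congr rfl
    intro w _
    rw [mul_sum, Real.exp_sum]
  have h3 : (∑ a, Real.exp (l * f a)) ^ m ≤ (Fintype.card α : ℝ) ^ m * Real.exp (4 * l ^ 2 * m) := by
    have h4 := exp_moment f hf h0 l hl0 (by rw [hl]; linarith)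
    calc (∑ a, Real.exp (l * f a)) ^ m ≤ (Fintype.card α * Real.exp (4 * l ^ 2)) ^ m :=
          pow_le_pow_left₀ (sum_nonneg fun a _ => (Real.exp_pos _).le) h4 m
      _ = _ := by
          rw [mul_pow, ← Real.exp_nat_mul]
          congr 2
          ring
  rw [h2] at h1
  have h5 := h1.trans h3
  have h6 : (Fintype.card α : ℝ) ^ m * Real.exp (4 * l ^ 2 * m) =
      ((Fintype.card α : ℝ) ^ m * Real.exp (-(r ^ 2 * m / 16))) * Real.exp (l * (r * m)) := by
    rw [mul_assoc ((Fintype.card α : ℝ) ^ m) (Real.exp _) (Real.exp _), ← Real.exp_add]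
    congr 2
    rw [hl]
    ring
  rw [h6] at h5
  exact le_of_mul_le_mul_right h5 (Real.exp_pos _)

/-- large deviations for complex values -/
lemma tailC {α : Type} [Fintype α] [Nonempty α] (m : ℕ) (h : α → ℂ) (hh : ∀ a, ‖h a‖ ≤ 1) (r : ℝ) (hr0 : 0 ≤ r) (hr : r ≤ 4) :
    ((univ.filter (fun w : Fin m → α => 2 * r * m + m * (‖∑ a, h a‖ / Fintype.card α) < ‖∑ i, h (w i)‖)).card : ℝ) ≤
      4 * ((Fintype.card α : ℝ) ^ m * Real.exp (-(r ^ 2 * m / 16))) := by
  classical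
  obtain ⟨μ, hμ⟩ : ∃ μ : ℂ, μ = (∑ a, h a) / Fintype.card α := ⟨_, rfl⟩
  have hc0 : (0 : ℝ) < Fintype.card α := by exact_mod_cast Fintype.card_pos
  have hc : (Fintype.card α : ℂ) ≠ 0 := by exact_mod_cast hc0.ne'
  have hμn : ‖μ‖ = ‖∑ a, h a‖ / Fintype.card α := by rw [hμ, norm_div, Complex.norm_natCast]
  have hμ1 : ‖μ‖ ≤ 1 := by
    rw [hμn, div_le_one hc0]
    refine (norm_sum_le _ _).trans ((sum_le_sum fun a _ => hh a).trans ?_)
    simp
  have hs0 : ∑ a, (h a - μ) = 0 := by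
    rw [sum_sub_distrib, sum_const, card_univ, nsmul_eq_mul, hμ]
    field_simp
    ring
  have hb : ∀ a, ‖h a - μ‖ ≤ 2 := fun a => (norm_sub_le _ _).trans (by linarith [hh a])
  have hre : ∀ a, |(h a - μ).re| ≤ 2 := fun a => (Complex.abs_re_le_norm _).trans (hb a)
  have him : ∀ a, |(h a - μ).im| ≤ 2 := fun a => (Complex.abs_im_le_norm _).trans (hb a)
  have sre : ∑ a, (h a - μ).re = 0 := by rw [← Complex.re_sum, hs0]; rfl
  have sim : ∑ a, (h a - μ).im = 0 := by rw [← Complex.im_sum, hs0]; rfl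
  have t1 := tail m (fun a => (h a - μ).re) hre sre r hr0 hr
  have t2 := tail m (fun a => -(h a - μ).re) (fun a => by rw [abs_neg]; exact hre a) (by rw [sum_neg_distrib, sre, neg_zero]) r hr0 hr
  have t3 := tail m (fun a => (h a - μ).im) him sim r hr0 hr
  have t4 := tail m (fun a => -(h a - μ).im) (fun a => by rw [abs_neg]; exact him a) (by rw [sum_neg_distrib, sim, neg_zero]) r hr0 hr
  set E1 := univ.filter (fun w : Fin m → α => r * m < ∑ i, (h (w i) - μ).re) with hE1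
  set E2 := univ.filter (fun w : Fin m → α => r * m < ∑ i, -(h (w i) - μ).re) with hE2
  set E3 := univ.filter (fun w : Fin m → α => r * m < ∑ i, (h (w i) - μ).im) with hE3
  set E4 := univ.filter (fun w : Fin m → α => r * m < ∑ i, -(h (w i) - μ).im) with hE4
  have hsub : univ.filter (fun w : Fin m → α => 2 * r * m + m * (‖∑ a, h a‖ / Fintype.card α) < ‖∑ i, h (w i)‖) ⊆
      (E1 ∪ E2) ∪ (E3 ∪ E4) := by
    intro w hw
    rw [mem_filter] at hw
    obtain ⟨-, hw⟩ := hw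
    rw [← hμn] at hw
    by_contra hn
    rw [mem_union, mem_union, mem_union, hE1, hE2, hE3, hE4, mem_filter, mem_filter, mem_filter, mem_filter] at hn
    push Not at hn
    obtain ⟨⟨n1, n2⟩, n3, n4⟩ := hn
    have n1 := n1 (mem_univ _)
    have n2 := n2 (mem_univ _)
    have n3 := n3 (mem_univ _)
    have n4 := n4 (mem_univ _)
    rw [sum_neg_distrib] at n2 n4
    have e1 : ∑ i, h (w i) = ∑ i, (h (w i) - μ) + m * μ := by
      rw [sum_sub_distrib, sum_const, card_univ, Fintype.card_fin, nsmul_eq_mul]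
      ring
    have e2 : ‖∑ i, (h (w i) - μ)‖ ≤ |∑ i, (h (w i) - μ).re| + |∑ i, (h (w i) - μ).im| := by
      have := Complex.norm_le_abs_re_add_abs_im (∑ i, (h (w i) - μ))
      rw [Complex.re_sum, Complex.im_sum] at this
      exact this
    have e3 : |∑ i, (h (w i) - μ).re| ≤ r * m := abs_le.2 ⟨by linarith, n1⟩
    have e4 : |∑ i, (h (w i) - μ).im| ≤ r * m := abs_le.2 ⟨by linarith, n3⟩
    have e5 : ‖∑ i, h (w i)‖ ≤ ‖∑ i, (h (w i) - μ)‖ + m * ‖μ‖ := by
      rw [e1]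
      refine (norm_add_le _ _).trans ?_
      rw [norm_mul, Complex.norm_natCast]
    linarith
  have hcard : ((univ.filter (fun w : Fin m → α => 2 * r * m + m * (‖∑ a, h a‖ / Fintype.card α) < ‖∑ i, h (w i)‖)).card : ℝ) ≤
      (E1.card + E2.card : ℝ) + (E3.card + E4.card : ℝ) := by
    have h1 := card_le_card hsub
    have h2 := card_union_le (E1 ∪ E2) (E3 ∪ E4)
    have h3 := card_union_le E1 E2
    have h4 := card_union_le E3 E4
    exact_mod_cast (by omega : (univ.filter (fun w : Fin m → α => 2 * r * m + m * (‖∑ a, h a‖ / Fintype.card α) < ‖∑ i, h (w i)‖)).card ≤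
      (E1.card + E2.card) + (E3.card + E4.card))
  linarith

/-- the exponential sum over an interval -/
lemma geo (N M t : ℕ) (ht0 : 0 < t) (ht : t < M) :
    ‖∑ n : Fin N, ee ((t : ℝ) * (((((n : ℕ) : ℤ) + 1 : ℤ) : ℝ) / M))‖ * (min t (M - t) : ℕ) ≤ M := by
  have hM0 : (0 : ℝ) < M := by exact_mod_cast (by omega : 0 < M)
  obtain ⟨w, hw⟩ : ∃ w, w = ee ((t : ℝ) / M) := ⟨_, rfl⟩
  have h1 : ∑ n : Fin N, ee ((t : ℝ) * (((((n : ℕ) : ℤ) + 1 : ℤ) : ℝ) / M)) = w * ∑ n ∈ range N, w ^ n := by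
    rw [Finset.sum_range (fun n => w ^ n), mul_sum]
    apply sum_congr rfl
    intro n _
    rw [← pow_succ', hw, ← ee_pow]
    congr 1
    push_cast
    ring
  have hd : 4 * min ((t : ℝ) / M) (1 - (t : ℝ) / M) ≤ ‖1 - w‖ := by
    have := dd_ge (t := (t : ℝ) / M) (by positivity) (by rw [div_le_one hM0]; exact_mod_cast ht.le)
    rw [hw]
    exact this
  have hmin : ((min t (M - t) : ℕ) : ℝ) = M * min ((t : ℝ) / M) (1 - (t : ℝ) / M) := by
    rw [mul_min_of_nonneg _ _ hM0.le]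
    push_cast [Nat.cast_sub ht.le]
    congr 1
    · field_simp
    · field_simp
  have hgeom : (∑ n ∈ range N, w ^ n) * (1 - w) = 1 - w ^ N := by
    have := geom_sum_mul w N
    linear_combination -this
  have hw1 : ‖w‖ = 1 := by rw [hw]; exact norm_ee _
  have h2 : ‖∑ n ∈ range N, w ^ n‖ * ‖1 - w‖ ≤ 2 := by
    rw [← norm_mul, hgeom]
    refine (norm_sub_le _ _).trans ?_
    rw [norm_one, norm_pow, hw1, one_pow]
    norm_num
  rw [h1, norm_mul, hw1, one_mul, hmin]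
  have h3 : 0 ≤ ‖∑ n ∈ range N, w ^ n‖ := norm_nonneg _
  calc ‖∑ n ∈ range N, w ^ n‖ * (M * min ((t : ℝ) / M) (1 - (t : ℝ) / M))
      = M / 4 * (‖∑ n ∈ range N, w ^ n‖ * (4 * min ((t : ℝ) / M) (1 - (t : ℝ) / M))) := by ring
    _ ≤ M / 4 * (‖∑ n ∈ range N, w ^ n‖ * ‖1 - w‖) := by
        apply mul_le_mul_of_nonneg_left _ (by positivity)
        exact mul_le_mul_of_nonneg_left hd h3
    _ ≤ M / 4 * 2 := mul_le_mul_of_nonneg_left h2 (by positivity)
    _ ≤ M := by linarith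

end Pool.Agent.V7H38.EH
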