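import Pool.Agent.V7H38.EH.Base
import Pool.Agent.V7H38.EH.Rand
import Pool.Agent.TH212.EH.A6

set_option autoImplicit false

/-! Random small subfamilies of families with few large Fourier coefficients; values of polynomials. -/

namespace Pool.Agent.V7H38.EH
open Finset Polynomial
open Pool.Agent.H807R2.Dav
open Pool.Agent.H373R2.T7 (moment cf abs_eval_le)
open Pool.Agent.TH212.EH (large)

open Classical in
/-- random subfamilies of `log ^ C N` members have few large Fourier coefficients -/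
theorem random_sub (B R C' D : ℕ) : ∃ C N0 : ℕ, ∀ N : ℕ, N0 ≤ N → ∀ (κ : Type) [Fintype κ] (u : κ → ℤ),
    Few (R + 1) C' B N u → ∀ m : ℕ, Real.log N ^ C ≤ m →
    ((univ.filter (fun w : Fin m → κ => ¬ Few R C' B N (fun i => u (w i)))).card : ℝ) * (N : ℝ) ^ D ≤
      (Fintype.card κ : ℝ) ^ m := by
  obtain ⟨n0, h0⟩ := large (max 2 (256 * ((D : ℝ) + 3))) (32 * (B + 1) + 3)
  refine ⟨2 * R + 2, n0, fun N hN κ _ u hFew m hm => ?_⟩
  obtain ⟨hN1, hLK, hL1⟩ := h0 N hN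
  obtain ⟨L, hL⟩ : ∃ L, L = Real.log (N : ℝ) := ⟨_, rfl⟩
  have hNpos : 0 < N := by omega
  have hN0 : (0 : ℝ) < N := by exact_mod_cast hNpos
  have hB0 : (0 : ℝ) ≤ B := Nat.cast_nonneg _
  have hD0 : (0 : ℝ) ≤ D := Nat.cast_nonneg _
  rw [← hL] at hLK hL1 hm
  have hL2 : 2 ≤ L := (le_max_left _ _).trans hLK
  have hLD : 256 * ((D : ℝ) + 3) ≤ L := (le_max_right _ _).trans hLK
  have hL0 : 0 < L := by linarith
  have hLR : 1 ≤ L ^ R := one_le_pow₀ hL1
  have hLR0 : 0 < L ^ R := by positivity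
  have hm1 : 1 ≤ m := by
    have : (1 : ℝ) ≤ m := (one_le_pow₀ hL1).trans hm
    exact_mod_cast this
  rcases isEmpty_or_nonempty κ with hκ | hκ
  · have hemp : univ.filter (fun w : Fin m → κ => ¬ Few R C' B N (fun i => u (w i))) = ∅ := by
      apply eq_empty_of_forall_notMem
      intro w _
      exact hκ.elim (w ⟨0, hm1⟩)
    rw [hemp, card_empty]
    simp
  obtain ⟨M, hM⟩ : ∃ M, M = md B N := ⟨_, rfl⟩
  have hMr : (M : ℝ) = 8 * (B + 1) * N := by rw [hM]; unfold md; push_cast; ring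
  obtain ⟨k0, hk0⟩ : ∃ k0 : ℝ, k0 = Fintype.card κ := ⟨_, rfl⟩
  have hk0pos : 0 < k0 := by rw [hk0]; exact_mod_cast Fintype.card_pos
  obtain ⟨r, hr⟩ : ∃ r : ℝ, r = 1 / (4 * L ^ R) := ⟨_, rfl⟩
  have hr0 : 0 ≤ r := by rw [hr]; positivity
  have hr4 : r ≤ 4 := by
    rw [hr, div_le_iff₀ (by positivity)]
    linarith
  obtain ⟨h, hh⟩ : ∃ h : ℕ → κ → ℂ, h = fun (t : ℕ) (a : κ) => ee ((t : ℝ) * ((u a : ℝ) / M)) := ⟨_, rfl⟩
  have hh1 : ∀ t a, ‖h t a‖ ≤ 1 := fun t a => by rw [hh]; simp only [norm_ee]; exact le_rfl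
  obtain ⟨Ev, hEv⟩ : ∃ Ev : ℕ → Finset (Fin m → κ), Ev = fun t =>
    univ.filter (fun w : Fin m → κ => 2 * r * m + m * (‖∑ a, h t a‖ / Fintype.card κ) < ‖∑ i, h t (w i)‖) := ⟨_, rfl⟩
  have hEvc : ∀ t, ((Ev t).card : ℝ) ≤ 4 * (k0 ^ m * Real.exp (-(r ^ 2 * m / 16))) := by
    intro t
    rw [hEv, hk0]
    exact tailC m (h t) (hh1 t) r hr0 hr4
  have hsub : univ.filter (fun w : Fin m → κ => ¬ Few R C' B N (fun i => u (w i))) ⊆ (range M).biUnion Ev := by
    intro w hw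
    rw [mem_filter] at hw
    by_contra hn
    apply hw.2
    rw [mem_biUnion] at hn
    push Not at hn
    unfold Few at hFew ⊢
    rw [← hM, ← hL] at hFew ⊢
    refine le_trans ?_ hFew
    apply Nat.cast_le.2
    apply card_le_card
    intro t ht
    rw [mem_filter, mem_range] at ht ⊢
    obtain ⟨ht1, ht2⟩ := ht
    refine ⟨ht1, ?_⟩
    by_contra hnot
    rw [not_lt] at hnot
    have hEt := hn t (mem_range.2 ht1)
    rw [hEv, mem_filter] at hEt
    push Not at hEt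
    have k1 := hEt (mem_univ _)
    rw [← hk0] at k1 hnot
    have k3 : ‖∑ a, h t a‖ / k0 ≤ 1 / (2 * L ^ R) := by
      have e1 : ∑ a, h t a = FC M u t := by
        rw [hh]
        rfl
      rw [e1, div_le_div_iff₀ hk0pos (by positivity), one_mul]
      calc ‖FC M u t‖ * (2 * L ^ R) ≤ k0 / L ^ (R + 1) * (2 * L ^ R) := mul_le_mul_of_nonneg_right hnot (by positivity)
        _ = k0 * (2 / L) := by rw [pow_succ]; field_simp
        _ ≤ k0 * 1 := by
            apply mul_le_mul_of_nonneg_left _ hk0pos.le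
            rw [div_le_one hL0]
            exact hL2
        _ = k0 := mul_one _
    have k4 : ‖FC M (fun i => u (w i)) t‖ = ‖∑ i, h t (w i)‖ := by
      unfold FC
      rw [hh]
      rfl
    have hm0 : (0 : ℝ) ≤ m := Nat.cast_nonneg _
    have k5 : ‖∑ i, h t (w i)‖ ≤ m / L ^ R := by
      refine k1.trans ?_
      have k6 := mul_le_mul_of_nonneg_left k3 hm0
      calc 2 * r * m + m * (‖∑ a, h t a‖ / k0) ≤ 2 * r * m + m * (1 / (2 * L ^ R)) := by linarith
        _ = m / L ^ R := by rw [hr]; field_simp; ring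
    rw [Fintype.card_fin, k4] at ht2
    linarith
  have hcard : ((univ.filter (fun w : Fin m → κ => ¬ Few R C' B N (fun i => u (w i)))).card : ℝ) ≤
      M * (4 * (k0 ^ m * Real.exp (-(r ^ 2 * m / 16)))) := by
    have h1 : ((univ.filter (fun w : Fin m → κ => ¬ Few R C' B N (fun i => u (w i)))).card : ℝ) ≤
        ∑ t ∈ range M, ((Ev t).card : ℝ) := by
      exact_mod_cast (card_le_card hsub).trans card_biUnion_le
    refine h1.trans ((sum_le_sum fun t _ => hEvc t).trans ?_)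
    rw [sum_const, card_range, nsmul_eq_mul]
  have hexp : Real.exp (-(r ^ 2 * m / 16)) ≤ ((N : ℝ) ^ (D + 3))⁻¹ := by
    have h1 : ((D : ℝ) + 3) * L ≤ r ^ 2 * m / 16 := by
      have h2 : r ^ 2 / 16 * L ^ (2 * R + 2) = L ^ 2 / 256 := by
        rw [hr, show 2 * R + 2 = R + R + 2 by ring, pow_add, pow_add]
        field_simp
        ring
      have h3 : r ^ 2 / 16 * L ^ (2 * R + 2) ≤ r ^ 2 / 16 * m := mul_le_mul_of_nonneg_left hm (by positivity)
      rw [h2] at h3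
      calc ((D : ℝ) + 3) * L ≤ L ^ 2 / 256 := by nlinarith
        _ ≤ r ^ 2 / 16 * m := h3
        _ = _ := by ring
    calc Real.exp (-(r ^ 2 * m / 16)) ≤ Real.exp (-(((D : ℝ) + 3) * L)) := Real.exp_le_exp.2 (by linarith)
      _ = ((N : ℝ) ^ (D + 3))⁻¹ := by
          rw [Real.exp_neg]
          congr 1
          have : ((D : ℝ) + 3) * L = ((D + 3 : ℕ) : ℝ) * Real.log N := by rw [hL]; push_cast; ring
          rw [this, Real.exp_nat_mul, Real.exp_log hN0]
  have hNm : (0 : ℝ) < k0 ^ m := by positivity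
  rw [← hk0]
  calc ((univ.filter (fun w : Fin m → κ => ¬ Few R C' B N (fun i => u (w i)))).card : ℝ) * (N : ℝ) ^ D
      ≤ (M * (4 * (k0 ^ m * ((N : ℝ) ^ (D + 3))⁻¹))) * (N : ℝ) ^ D := by
        apply mul_le_mul_of_nonneg_right _ (by positivity)
        refine hcard.trans ?_
        gcongr
    _ = 32 * (B + 1) / N ^ 2 * k0 ^ m := by
        rw [hMr, show D + 3 = D + 2 + 1 by ring, pow_succ _ (D + 2), pow_add]
        field_simp
        ring
    _ ≤ 1 * k0 ^ m := by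
        apply mul_le_mul_of_nonneg_right _ hNm.le
        rw [div_le_one (by positivity)]
        have h1 : (32 * ((B : ℝ) + 1)) ≤ N := by
          have : ((32 * (B + 1) : ℕ) : ℝ) ≤ N := by exact_mod_cast (by omega : 32 * (B + 1) ≤ N)
          push_cast at this
          exact this
        have h2 : (1 : ℝ) ≤ N := by exact_mod_cast hNpos
        nlinarith
    _ = _ := one_mul _

/-- moments of the Fourier coefficients of polynomial values, any sign of the leading coefficient -/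
lemma moment' (f : ℤ[X]) (hd : 1 ≤ f.natDegree) (B : ℕ) (hB : 1 ≤ B) :
    ∃ p : ℕ, ∃ C : ℝ, 0 < C ∧ ∀ x M : ℕ, 1 ≤ x → 1 ≤ M → M ≤ B * x ^ f.natDegree →
      ∑ t ∈ range M, (‖∑ m ∈ Icc 1 x, ee ((t : ℝ) * (((f.eval (m : ℤ) : ℤ) : ℝ) / M))‖ / x) ^ (2 * p) ≤ C := by
  rcases lt_trichotomy f.leadingCoeff 0 with h | h | h
  · obtain ⟨p, _, C, hC, hE⟩ := moment (-f) (by rwa [natDegree_neg]) (by rw [leadingCoeff_neg]; omega) B hB
    refine ⟨p, C, hC, fun x M hx hM hMx => ?_⟩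
    have := hE (-1) (Or.inr rfl) x M hx hM (by rw [natDegree_neg]; exact hMx)
    simpa only [eval_neg, neg_mul, one_mul, neg_neg] using this
  · rw [leadingCoeff_eq_zero] at h
    subst h
    simp at hd
  · obtain ⟨p, _, C, hC, hE⟩ := moment f hd h B hB
    refine ⟨p, C, hC, fun x M hx hM hMx => ?_⟩
    have := hE 1 (Or.inl rfl) x M hx hM hMx
    simpa only [one_mul] using this

/-- polynomial values have few large Fourier coefficients -/
theorem poly_few (f : ℤ[X]) (hd : 1 ≤ f.natDegree) (B R : ℕ) : ∃ C' X0 : ℕ, ∀ x : ℕ, X0 ≤ x →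
    Few R C' B (x ^ f.natDegree) (fun i : Fin x => f.eval (((i : ℕ) + 1 : ℕ) : ℤ)) := by
  classical
  obtain ⟨p, C, hC, hmom⟩ := moment' f hd (8 * (B + 1)) (by omega)
  obtain ⟨n0, h0⟩ := large C 3
  refine ⟨R * (2 * p) + 1, n0, fun x hx => ?_⟩
  have hxd : x ≤ x ^ f.natDegree := Nat.le_self_pow (by omega) x
  obtain ⟨hN1, hLC, hL1⟩ := h0 (x ^ f.natDegree) (hx.trans hxd)
  have h4 := (h0 x hx).1
  have hx1 : 1 ≤ x := by omega
  obtain ⟨N, hN⟩ : ∃ N, N = x ^ f.natDegree := ⟨_, rfl⟩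
  rw [← hN] at hN1 hLC hL1 ⊢
  obtain ⟨L, hL⟩ : ∃ L, L = Real.log (N : ℝ) := ⟨_, rfl⟩
  rw [← hL] at hLC hL1
  have hL0 : 0 < L := by linarith
  obtain ⟨M, hM⟩ : ∃ M, M = md B N := ⟨_, rfl⟩
  have hM1 : 1 ≤ M := by
    rw [hM]; unfold md
    exact Nat.mul_pos (by omega) (by omega)
  have key := hmom x M hx1 hM1 (by rw [hM]; unfold md; rw [hN])
  unfold Few
  rw [← hM, ← hL, Fintype.card_fin]
  have hx0 : (0 : ℝ) < x := by exact_mod_cast hx1
  have e1 : ∀ t : ℕ, FC M (fun i : Fin x => f.eval (((i : ℕ) + 1 : ℕ) : ℤ)) t =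
      ∑ m ∈ Icc 1 x, ee ((t : ℝ) * (((f.eval (m : ℤ) : ℤ) : ℝ) / M)) := by
    intro t
    unfold FC
    rw [Fin.sum_univ_eq_sum_range (fun n => ee (((t : ℕ) : ℤ) * (((f.eval ((n + 1 : ℕ) : ℤ) : ℤ) : ℝ) / M))) x]
    symm
    refine sum_bij' (fun m _ => m - 1) (fun n _ => n + 1) ?_ ?_ ?_ ?_ ?_
    · intro m hm
      rw [mem_Icc] at hm
      rw [mem_range]
      omega
    · intro n hn
      rw [mem_range] at hn
      rw [mem_Icc]
      omega
    · intro m hm
      rw [mem_Icc] at hm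
      omega
    · intro n _
      omega
    · intro m hm
      rw [mem_Icc] at hm
      rw [show m - 1 + 1 = m by omega]
      push_cast
      rfl
  set S := (range M).filter (fun t : ℕ => (x : ℝ) / L ^ R < ‖FC M (fun i : Fin x => f.eval (((i : ℕ) + 1 : ℕ) : ℤ)) t‖) with hS
  have h5 : (S.card : ℝ) * (1 / L ^ R) ^ (2 * p) ≤ C := by
    refine le_trans ?_ key
    rw [← nsmul_eq_mul, ← sum_const]
    refine le_trans (sum_le_sum fun t ht => ?_) (sum_le_sum_of_subset_of_nonneg (filter_subset _ _) (fun t _ _ => by positivity))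
    apply pow_le_pow_left₀ (by positivity)
    rw [hS, mem_filter, e1] at ht
    rw [le_div_iff₀ hx0, one_div_mul_eq_div]
    exact ht.2.le
  have h6 : (1 / L ^ R) ^ (2 * p) = 1 / L ^ (R * (2 * p)) := by
    rw [div_pow, one_pow, ← pow_mul]
  rw [h6, mul_one_div, div_le_iff₀ (by positivity)] at h5
  calc (S.card : ℝ) ≤ C * L ^ (R * (2 * p)) := h5
    _ ≤ L * L ^ (R * (2 * p)) := mul_le_mul_of_nonneg_right hLC (by positivity)
    _ = _ := by ring

end Pool.Agent.V7H38.EH
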