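import Pool.Agent.V7H38.EH.Spec
import Pool.Agent.TH212.EH.A1

set_option autoImplicit false

/-! First moments of the correlations of the primes along families with few large Fourier coefficients. -/

namespace Pool.Agent.V7H38.EH
open Finset
open Pool.Agent.H807R2.Dav
open Pool.Agent.H373R2.T7
open Pool.Agent.W93.AU (dI)
open Pool.Agent.TH212.EH (S1 S2 real_norm reflect)

/-- the modulus -/
def md (B N : ℕ) : ℕ := 8 * (B + 1) * N

open Classical in
/-- at most `log ^ C N` Fourier coefficients modulo `8 (B + 1) N` are larger than `#ι / log ^ R N` -/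
def Few (R C B N : ℕ) {ι : Type} [Fintype ι] (v : ι → ℤ) : Prop :=
  (((range (md B N)).filter (fun t : ℕ => (Fintype.card ι : ℝ) / Real.log N ^ R < ‖FC (md B N) v t‖)).card : ℝ) ≤
    Real.log N ^ C

lemma Few_add (R C B N : ℕ) {ι : Type} [Fintype ι] (v : ι → ℤ) (c : ℤ) (h : Few R C B N v) :
    Few R C B N (fun i => v i + c) := by
  unfold Few at h ⊢
  simp only [FC_add]
  exact h

set_option maxHeartbeats 1000000 in
/-- first moments for a fixed length -/
theorem base (B U : ℕ) : ∃ R : ℕ, ∀ C : ℕ, ∃ B0 : ℕ, ∀ E : ℕ, ∃ N0 : ℕ, ∀ N : ℕ, N0 ≤ N → ∀ (ι : Type) [Fintype ι] (v : ι → ℤ),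
    (∀ i, |v i| ≤ B * N) → Few R C B N v →
    ∀ z : ℕ, Real.log N ^ B0 ≤ z → (z : ℝ) ≤ Real.log N ^ E → ∀ A : ℕ, A ≤ B * N →
    ∀ G : ℕ → ℝ, (∀ n, |G n| ≤ 1) →
    ∑ i, |S1 G z A (v i)| ≤ N * Fintype.card ι / Real.log N ^ U ∧
    ∑ i, |S2 G z A (v i)| ≤ N * Fintype.card ι / Real.log N ^ U := by
  classical
  obtain ⟨R, hR⟩ : ∃ R, R = 2 * U + 4 := ⟨_, rfl⟩
  refine ⟨R, fun C => ?_⟩
  obtain ⟨U', hU'⟩ : ∃ U', U' = C + 2 * U + 3 := ⟨_, rfl⟩
  obtain ⟨B1', hsup⟩ := sup_diff U'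
  refine ⟨B1' + 1, fun E => ?_⟩
  obtain ⟨m1, h1⟩ := hsup E
  obtain ⟨m2, h2⟩ := Vz_inv_small E
  obtain ⟨b, hb⟩ : ∃ b : ℕ, b = 4 * (B + 1) := ⟨_, rfl⟩
  obtain ⟨m3, h3⟩ := ev_L' (max (6 * (b : ℝ) ^ 2 + 1) (max (2 ^ B1') (Real.log b + 1)))
  refine ⟨max (max m1 m2) (max m3 3), fun N hN ι _ v hv hFew z hz1 hz2 A hA G hG => ?_⟩
  have hm1 : m1 ≤ N := le_trans (le_trans (le_max_left _ _) (le_max_left _ _)) hN
  have hm2 : m2 ≤ N := le_trans (le_trans (le_max_right _ _) (le_max_left _ _)) hN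
  have hL := h3 N (le_trans (le_trans (le_max_left _ _) (le_max_right _ _)) hN)
  have hN3 : 3 ≤ N := le_trans (le_trans (le_max_right _ _) (le_max_right _ _)) hN
  have hNr : (3 : ℝ) ≤ N := by exact_mod_cast hN3
  have hN0 : (0 : ℝ) < N := by linarith
  have hbpos : 1 ≤ b := by omega
  have hbr : (1 : ℝ) ≤ b := by exact_mod_cast hbpos
  have hFew' := hFew
  unfold Few at hFew
  set L := Real.log N with hLd
  have hL1 : 6 * (b : ℝ) ^ 2 + 1 ≤ L := (le_max_left _ _).trans hL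
  have hL3 : (2 : ℝ) ^ B1' ≤ L := ((le_max_left _ _).trans (le_max_right _ _)).trans hL
  have hL4 : Real.log b + 1 ≤ L := ((le_max_right _ _).trans (le_max_right _ _)).trans hL
  have hb2 : 0 ≤ 6 * (b : ℝ) ^ 2 := by positivity
  have hLge1 : 1 ≤ L := by linarith
  have hL0 : 0 < L := by linarith
  have hz : 1 ≤ z := by
    have : (1 : ℝ) ≤ z := (one_le_pow₀ hLge1).trans hz1
    exact_mod_cast this
  obtain ⟨H, hH⟩ : ∃ H : ℕ, H = b * N := ⟨_, rfl⟩
  obtain ⟨M, hM⟩ : ∃ M : ℕ, M = md B N := ⟨_, rfl⟩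
  have hMH : M = 2 * H := by rw [hM, hH, hb]; unfold md; ring
  have hHN : N ≤ H := by rw [hH]; exact Nat.le_mul_of_pos_left _ hbpos
  have hH1 : 1 ≤ H := by omega
  have hM1 : 1 ≤ M := by omega
  have hHM : H ≤ M := by omega
  have hHr : (H : ℝ) = b * N := by rw [hH]; push_cast; ring
  have hlogH1 : L ≤ Real.log H := Real.log_le_log hN0 (by exact_mod_cast hHN)
  have hlogH2 : Real.log H ≤ 2 * L := by
    rw [hHr, Real.log_mul (by positivity) hN0.ne']
    linarith
  have hHz : (H : ℤ) = 4 * (B * N) + 4 * N := by rw [hH, hb]; push_cast; ring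
  have hMz : (M : ℤ) = 8 * (B * N) + 8 * N := by rw [hMH]; push_cast; rw [hHz]; ring
  have hAM : A ≤ M := by
    have h5 : (A : ℤ) ≤ B * N := by exact_mod_cast hA
    have h6 : (0 : ℤ) ≤ B * N := by positivity
    omega
  -- the function
  set fΛ : ℕ → ℂ := fun n => ((ArithmeticFunction.vonMangoldt n - lamz z n : ℝ) : ℂ) with hfΛ
  have hzH1 : Real.log H ^ B1' ≤ z := by
    calc Real.log H ^ B1' ≤ (2 * L) ^ B1' := pow_le_pow_left₀ (hL0.le.trans hlogH1) hlogH2 _
      _ = 2 ^ B1' * L ^ B1' := mul_pow _ _ _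
      _ ≤ L * L ^ B1' := mul_le_mul_of_nonneg_right hL3 (by positivity)
      _ = L ^ (B1' + 1) := by ring
      _ ≤ z := hz1
  have hzH2 : (z : ℝ) ≤ Real.log H ^ E := hz2.trans (pow_le_pow_left₀ hL0.le hlogH1 _)
  have hsup1 : ∀ α : ℝ, ‖∑ n ∈ Icc 1 H, fΛ n * ee ((n : ℝ) * α)‖ ≤ H / L ^ U' := by
    intro α
    refine (h1 H (hm1.trans hHN) z hzH1 hzH2 α).trans ?_
    apply div_le_div_of_nonneg_left (by positivity) (by positivity)
    exact pow_le_pow_left₀ hL0.le hlogH1 _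
  have hVinv := h2 N hm2 z hz hz2
  have hlz : ∀ n, lamz z n ≤ L := by
    intro n
    unfold lamz
    split_ifs
    · exact hVinv
    · exact hL0.le
  have hfs : ∑ n ∈ Icc 1 H, ‖fΛ n‖ ^ 2 ≤ H * (2 * L) ^ 2 := by
    have h4 : ∀ n ∈ Icc 1 H, ‖fΛ n‖ ^ 2 ≤ (2 * L) ^ 2 := by
      intro n hn
      rw [mem_Icc] at hn
      apply pow_le_pow_left₀ (norm_nonneg _)
      rw [hfΛ, Complex.norm_real, Real.norm_eq_abs]
      have h5 : ArithmeticFunction.vonMangoldt n ≤ 2 * L := by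
        refine ArithmeticFunction.vonMangoldt_le_log.trans (le_trans ?_ hlogH2)
        exact Real.log_le_log (by exact_mod_cast hn.1) (by exact_mod_cast hn.2)
      have h6 : (0 : ℝ) ≤ ArithmeticFunction.vonMangoldt n := ArithmeticFunction.vonMangoldt_nonneg
      have h7 := lamz_nonneg z n
      have h8 := hlz n
      rw [abs_le]
      constructor <;> linarith
    refine (sum_le_sum h4).trans ?_
    rw [sum_const, Nat.card_Icc, nsmul_eq_mul]
    simp
  obtain ⟨x, hx⟩ : ∃ x : ℝ, x = Fintype.card ι := ⟨_, rfl⟩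
  have hx0 : 0 ≤ x := by rw [hx]; exact Nat.cast_nonneg _
  -- the general shift
  have key : ∀ c : ℤ, |c| ≤ (B + 1) * N → ∀ G' : ℕ → ℝ, (∀ n, |G' n| ≤ 1) →
      ∑ i, |∑ a ∈ Icc 1 A, G' a * dI z ((a : ℤ) + (v i - c))| ≤ N * x / L ^ U := by
    intro c hc G' hG'
    have hcond : ∀ a ∈ Icc 1 A, ∀ i, ∀ n ∈ Icc 1 H, |(a : ℤ) + (v i - c) - n| < M := by
      intro a ha i n hn
      have h4 := abs_le.1 (hv i)
      have h4' := abs_le.1 hc
      rw [mem_Icc] at ha hn
      have h5 : (a : ℤ) ≤ B * N := by exact_mod_cast ha.2.trans hA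
      have h6 : (n : ℤ) ≤ H := by exact_mod_cast hn.2
      have h10 : (1 : ℤ) ≤ a := by exact_mod_cast ha.1
      have h11 : (1 : ℤ) ≤ n := by exact_mod_cast hn.1
      have h12 : (0 : ℤ) ≤ B * N := by positivity
      have h13 : ((B : ℤ) + 1) * N = B * N + N := by ring
      rw [h13] at h4'
      rw [abs_lt]
      constructor <;> omega
    have hK : (((range M).filter (fun t : ℕ => 1 / L ^ R * Fintype.card ι < ‖FC M (fun i => v i - c) t‖)).card : ℝ) ≤ L ^ C := by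
      have e1 : ∀ t : ℕ, ‖FC M (fun i => v i - c) t‖ = ‖FC M v t‖ := by
        intro t
        have := FC_add M v (-c) t
        simpa only [sub_eq_add_neg] using this
      simp only [e1, one_div_mul_eq_div]
      rw [hM]
      exact hFew
    have k1 := bil_spec A H M hM1 fΛ (fun n => ((G' n : ℝ) : ℂ)) (fun i => v i - c) (H / L ^ U') (1 / L ^ R) (L ^ C)
      (H * (2 * L) ^ 2) hcond hAM hHM hsup1 (by
        intro a
        rw [Complex.norm_real, Real.norm_eq_abs]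
        exact hG' a) hfs (by positivity) hK
    have e2 : ∀ i, ‖∑ a ∈ Icc 1 A, ((G' a : ℝ) : ℂ) * fz fΛ H (a + (v i - c))‖ =
        |∑ a ∈ Icc 1 A, G' a * dI z ((a : ℤ) + (v i - c))| := by
      intro i
      rw [← real_norm G' (Icc 1 A) (fun a => dI z ((a : ℤ) + (v i - c)))]
      congr 1
      apply sum_congr rfl
      intro a ha
      congr 1
      have h4 := abs_le.1 (hv i)
      have h4' := abs_le.1 hc
      rw [mem_Icc] at ha
      have h5 : (a : ℤ) ≤ B * N := by exact_mod_cast ha.2.trans hA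
      have h12 : (0 : ℤ) ≤ B * N := by positivity
      have h13 : ((B : ℤ) + 1) * N = B * N + N := by ring
      rw [h13] at h4'
      unfold fz dI
      by_cases h6 : 1 ≤ (a : ℤ) + (v i - c)
      · rw [if_pos ⟨h6, by omega⟩]
        unfold lamI lamzI
        rw [if_pos h6, if_pos h6]
      · rw [if_neg (fun h => h6 h.1)]
        unfold lamI lamzI
        rw [if_neg h6, if_neg h6]
        simp
    simp only [e2] at k1
    rw [← hx] at k1
    have hAr : (A : ℝ) ≤ b * N := by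
      have : A ≤ H := by
        have h5 : (A : ℤ) ≤ B * N := by exact_mod_cast hA
        have h6 : (0 : ℤ) ≤ B * N := by positivity
        omega
      calc (A : ℝ) ≤ H := by exact_mod_cast this
        _ = _ := hHr
    have hA0 : (0 : ℝ) ≤ A := Nat.cast_nonneg _
    have t1 : 1 / L ^ R * (H * (2 * L) ^ 2 * A) ≤ 4 * b ^ 2 / L ^ 2 * (N / L ^ U) ^ 2 := by
      have h4 : (H : ℝ) * (2 * L) ^ 2 * A ≤ (b * N) * (2 * L) ^ 2 * (b * N) := by
        rw [hHr]
        exact mul_le_mul_of_nonneg_left hAr (by positivity)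
      calc 1 / L ^ R * (H * (2 * L) ^ 2 * A) ≤ 1 / L ^ R * ((b * N) * (2 * L) ^ 2 * (b * N)) :=
            mul_le_mul_of_nonneg_left h4 (by positivity)
        _ = _ := by
            rw [hR, show 2 * U + 4 = U + U + 2 + 2 by ring, pow_add, pow_add, pow_add]
            field_simp
            ring
    have t2 : L ^ C * (H / L ^ U') * Real.sqrt (H * (2 * L) ^ 2 * A) ≤ 2 * b ^ 2 / L ^ 2 * (N / L ^ U) ^ 2 := by
      have h4 : Real.sqrt (H * (2 * L) ^ 2 * A) ≤ (b * N) * (2 * L) := by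
        rw [Real.sqrt_le_left (by positivity), hHr]
        calc (b : ℝ) * N * (2 * L) ^ 2 * A ≤ (b * N) * (2 * L) ^ 2 * (b * N) := mul_le_mul_of_nonneg_left hAr (by positivity)
          _ = _ := by ring
      calc L ^ C * (H / L ^ U') * Real.sqrt (H * (2 * L) ^ 2 * A) ≤ L ^ C * (H / L ^ U') * ((b * N) * (2 * L)) :=
            mul_le_mul_of_nonneg_left h4 (by positivity)
        _ = _ := by
            rw [hHr, hU', show C + 2 * U + 3 = C + U + U + 2 + 1 by ring, pow_add, pow_add, pow_add, pow_add, pow_one]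
            field_simp
    have t3 : ∑ i, |∑ a ∈ Icc 1 A, G' a * dI z ((a : ℤ) + (v i - c))| ^ 2 ≤ x * (N / L ^ U) ^ 2 := by
      refine k1.trans ?_
      apply mul_le_mul_of_nonneg_left _ hx0
      have h5 : 0 ≤ ((N : ℝ) / L ^ U) ^ 2 := by positivity
      have h6 : (6 * (b : ℝ) ^ 2) / L ^ 2 ≤ 1 := by
        rw [div_le_one (by positivity)]
        nlinarith
      calc _ ≤ 4 * b ^ 2 / L ^ 2 * (N / L ^ U) ^ 2 + 2 * b ^ 2 / L ^ 2 * (N / L ^ U) ^ 2 := add_le_add t1 t2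
        _ = (6 * (b : ℝ) ^ 2) / L ^ 2 * (N / L ^ U) ^ 2 := by ring
        _ ≤ 1 * (N / L ^ U) ^ 2 := mul_le_mul_of_nonneg_right h6 h5
        _ = _ := one_mul _
    have t4 : (∑ i, |∑ a ∈ Icc 1 A, G' a * dI z ((a : ℤ) + (v i - c))|) ^ 2 ≤ (N * x / L ^ U) ^ 2 := by
      have h8 := sum_mul_sq_le_sq_mul_sq (univ : Finset ι) (fun _ => (1 : ℝ))
        (fun i => |∑ a ∈ Icc 1 A, G' a * dI z ((a : ℤ) + (v i - c))|)
      simp only [one_mul, one_pow, sum_const, card_univ, nsmul_eq_mul, mul_one] at h8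
      rw [← hx] at h8
      refine h8.trans ?_
      calc x * ∑ i, |∑ a ∈ Icc 1 A, G' a * dI z ((a : ℤ) + (v i - c))| ^ 2 ≤ x * (x * (N / L ^ U) ^ 2) :=
            mul_le_mul_of_nonneg_left t3 hx0
        _ = _ := by ring
    exact le_of_sq_le_sq t4 (by positivity)
  rw [← hx]
  constructor
  · have h3 := key 0 (by rw [abs_zero]; positivity) G hG
    simp only [sub_zero] at h3
    exact h3
  · have h3 := key ((A + 1 : ℕ) : ℤ) (by
      rw [abs_of_nonneg (by positivity)]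
      have q1 : ((A : ℕ) : ℤ) ≤ B * N := by exact_mod_cast hA
      have q2 : (1 : ℤ) ≤ N := by exact_mod_cast (by omega : 1 ≤ N)
      push_cast
      linarith) (fun a => G (A + 1 - a)) (fun n => hG _)
    simp only [reflect] at h3
    exact h3

end Pool.Agent.V7H38.EH
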