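import Pool.Agent.V7H38.EH.Base
import Pool.Agent.TH212.EH.A6

set_option autoImplicit false

/-! Level of distribution along families with few large Fourier coefficients.  The passage from the first moments of
the correlations is that of the starting files `Pool.Agent.TH212.EH.A2`, ..., `Pool.Agent.TH212.EH.A6`. -/

namespace Pool.Agent.V7H38.EH
open Finset
open Pool.Agent.W93.LV
open Pool.Agent.H373R2.T7 (lamI lamzI ev_L' Vz_inv_small lamz lamz_nonneg lamI_nonneg lamzI_nonneg Vz)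
open Pool.Agent.W93.AU (dI)
open Pool.Agent.TH212.EH (S1 S2 net_sum dI_le sum_Icc_sub step large choice2 level W level_mul WW Fu_diff Fu_zero Fu_le E_le
  WW_net tail_le WW_cell WW_split netQ level_anti level_le level_leN markov)

lemma Few_anti (R R' C B N : ℕ) {ι : Type} [Fintype ι] (v : ι → ℤ) (h : R ≤ R') (hL : 1 ≤ Real.log N)
    (hF : Few R' C B N v) : Few R C B N v := by
  classical
  unfold Few at hF ⊢
  refine le_trans ?_ hF
  have h2 : (Fintype.card ι : ℝ) / Real.log N ^ R' ≤ (Fintype.card ι : ℝ) / Real.log N ^ R := by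
    apply div_le_div_of_nonneg_left (Nat.cast_nonneg _) (by positivity)
    exact pow_le_pow_right₀ hL h
  exact_mod_cast card_le_card (fun t ht => by
    rw [mem_filter] at ht ⊢
    exact ⟨ht.1, h2.trans_lt ht.2⟩)

/-- maximal first moments -/
theorem maxi (B T U : ℕ) : ∃ R : ℕ, ∀ C : ℕ, ∃ B0 : ℕ, ∀ E : ℕ, ∃ N0 : ℕ, ∀ N : ℕ, N0 ≤ N → ∀ (ι : Type) [Fintype ι] (v : ι → ℤ),
    (∀ i, |v i| ≤ B * N) → Few R C B N v →
    ∀ z : ℕ, Real.log N ^ B0 ≤ z → (z : ℝ) ≤ Real.log N ^ E →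
    ∀ G : ℕ → ℝ, (∀ n, |G n| ≤ Real.log N ^ T) → ∀ A : ι → ℕ, (∀ i, A i ≤ B * N) →
    ∑ i, |S1 G z (A i) (v i)| ≤ N * Fintype.card ι / Real.log N ^ U ∧
    ∑ i, |S2 G z (A i) (v i)| ≤ N * Fintype.card ι / Real.log N ^ U := by
  classical
  obtain ⟨k, hk⟩ : ∃ k, k = T + U + 3 := ⟨_, rfl⟩
  obtain ⟨U', hU'⟩ : ∃ U', U' = T + k + U + 2 := ⟨_, rfl⟩
  obtain ⟨R, hbase⟩ := base B U'
  refine ⟨R, fun C => ?_⟩
  obtain ⟨B0, h0⟩ := hbase C
  refine ⟨B0, fun E => ?_⟩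
  obtain ⟨n0, h0⟩ := h0 E
  obtain ⟨n1, h1⟩ := Vz_inv_small E
  obtain ⟨n2, h2⟩ := large (max (B + 2) (Real.log (2 * B + 1))) (n0 + n1 + 3)
  refine ⟨n2, fun N hN ι _ v hv hE z hz1 hz2 G hG A hA => ?_⟩
  obtain ⟨hN1, hLK, hL1⟩ := h2 N hN
  obtain ⟨L, hL⟩ : ∃ L, L = Real.log (N : ℝ) := ⟨_, rfl⟩
  have c0 := h0 N (by omega) ι v hv hE z hz1 hz2
  rw [← hL] at hLK hL1 hG c0 hz1 hz2 ⊢
  have hLB : (B : ℝ) + 2 ≤ L := (le_max_left _ _).trans hLK
  have hLl : Real.log (2 * B + 1) ≤ L := (le_max_right _ _).trans hLK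
  have hL0 : 0 < L := by linarith
  have hB0 : (0 : ℝ) ≤ B := Nat.cast_nonneg _
  have hL2 : 2 ≤ L := by linarith
  have hN0 : (0 : ℝ) < N := by exact_mod_cast (by omega : 0 < N)
  obtain ⟨X, hX⟩ : ∃ X : ℕ, X = (2 * B + 1) * N := ⟨_, rfl⟩
  obtain ⟨Lx, hLx⟩ : ∃ Lx, Lx = Real.log (X : ℝ) := ⟨_, rfl⟩
  have hLx2 : Lx ≤ 2 * L := by
    rw [hLx, hX]
    push_cast
    rw [Real.log_mul (by positivity) hN0.ne', ← hL]
    linarith
  have hLx1 : L ≤ Lx := by
    rw [hLx, hL]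
    apply Real.log_le_log hN0
    exact_mod_cast (by rw [hX]; exact Nat.le_mul_of_pos_left _ (by omega) : N ≤ X)
  have hz : 1 ≤ z := by
    have : (1 : ℝ) ≤ z := (one_le_pow₀ hL1).trans hz1
    exact_mod_cast this
  have hV : (Vz z)⁻¹ ≤ Lx := (h1 N (by omega) z hz (by rw [← hL]; exact hz2)).trans (by rw [← hL]; exact hLx1)
  have hLT : 0 < L ^ T := by positivity
  -- normalised function
  obtain ⟨G', hG'⟩ : ∃ G' : ℕ → ℝ, G' = fun n => G n / L ^ T := ⟨_, rfl⟩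
  have hG1 : ∀ n, |G' n| ≤ 1 := by
    intro n
    rw [hG']
    simp only
    rw [abs_div, abs_of_pos hLT, div_le_one hLT]
    exact hG n
  have hGG : ∀ n, G n = L ^ T * G' n := by
    intro n
    rw [hG']
    simp only
    field_simp
  -- the cells
  obtain ⟨D, hD⟩ : ∃ D : ℕ, D = ⌊(N : ℝ) / L ^ k⌋₊ := ⟨_, rfl⟩
  have hD1 : (D : ℝ) ≤ N / L ^ k := by rw [hD]; exact Nat.floor_le (by positivity)
  have hD2 : (N : ℝ) / L ^ k < D + 1 := by rw [hD]; exact Nat.lt_floor_add_one _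
  obtain ⟨J, hJ⟩ : ∃ J : ℕ, J = B * N / (D + 1) := ⟨_, rfl⟩
  have hJ1 : (J : ℝ) ≤ B * L ^ k := by
    have q1 : (J : ℝ) ≤ ((B * N : ℕ) : ℝ) / ((D + 1 : ℕ) : ℝ) := by rw [hJ]; exact Nat.cast_div_le
    refine q1.trans ?_
    push_cast
    rw [div_le_iff₀ (by positivity)]
    rw [div_lt_iff₀ (by positivity)] at hD2
    nlinarith
  obtain ⟨g, hg⟩ : ∃ g : ℕ → ℕ, g = fun A => (D + 1) * (A / (D + 1)) := ⟨_, rfl⟩
  obtain ⟨R, hR⟩ : ∃ R : Finset ℕ, R = (range (J + 1)).image (fun j => (D + 1) * j) := ⟨_, rfl⟩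
  have hRc : (R.card : ℝ) ≤ L ^ (k + 1) := by
    have q1 : R.card ≤ J + 1 := by
      rw [hR]
      refine card_image_le.trans ?_
      rw [card_range]
    have q2 : (1 : ℝ) ≤ L ^ k := one_le_pow₀ hL1
    calc (R.card : ℝ) ≤ J + 1 := by exact_mod_cast q1
      _ ≤ B * L ^ k + L ^ k := add_le_add hJ1 q2
      _ = (B + 1) * L ^ k := by ring
      _ ≤ L * L ^ k := mul_le_mul_of_nonneg_right (by linarith) (by positivity)
      _ = L ^ (k + 1) := by ring
  have hgR : ∀ A ≤ B * N, g A ≤ A ∧ g A ∈ R := by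
    intro A hA
    rw [hg, hR]
    refine ⟨Nat.mul_div_le _ _, mem_image.2 ⟨A / (D + 1), ?_, rfl⟩⟩
    rw [mem_range, hJ]
    exact Nat.lt_succ_of_le (Nat.div_le_div_right hA)
  have hgD : ∀ A, A - g A ≤ D := by
    intro A
    rw [hg]
    simp only
    have q1 := Nat.div_add_mod A (D + 1)
    have q2 := Nat.mod_lt A (by omega : D + 1 > 0)
    omega
  have hsum : ∀ S : ℕ → ι → ℝ, (∀ A ≤ B * N, ∑ i, |S A i| ≤ N * Fintype.card ι / L ^ U') →
      (∀ i, ∀ A ≤ B * N, |S A i| ≤ |S (g A) i| + ((A - g A : ℕ) : ℝ) * Lx) →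
      ∑ i, |S (A i) i| ≤ N * Fintype.card ι / L ^ (U + T) := by
    intro S hS1 hS2
    have q1 := net_sum S (B * N) g R _ (N / L ^ k * (2 * L)) hgR hS1 (by
      intro i A hA
      refine (hS2 i A hA).trans (add_le_add le_rfl ?_)
      apply mul_le_mul _ hLx2 (by linarith) (by positivity)
      refine le_trans ?_ hD1
      exact_mod_cast hgD A) A hA
    refine q1.trans ?_
    have q2 : (R.card : ℝ) * (N * Fintype.card ι / L ^ U') ≤ L ^ (k + 1) * (N * Fintype.card ι / L ^ U') :=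
      mul_le_mul_of_nonneg_right hRc (by positivity)
    have q3 : L ^ (k + 1) * (N * Fintype.card ι / L ^ U') = N * Fintype.card ι / L ^ (U + T) * (1 / L) := by
      rw [hU', show T + k + U + 2 = (U + T) + (k + 1) + 1 by ring, pow_succ L ((U + T) + (k + 1)), pow_add L (U + T)]
      field_simp
    have q4 : (Fintype.card ι : ℝ) * (N / L ^ k * (2 * L)) = N * Fintype.card ι / L ^ (U + T) * (2 / L ^ 2) := by
      rw [hk, show T + U + 3 = (U + T) + 3 by ring, pow_add]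
      field_simp
    rw [q4]
    rw [q3] at q2
    have q5 : 1 / L + 2 / L ^ 2 ≤ 1 := by
      rw [div_add_div _ _ hL0.ne' (by positivity), div_le_one (by positivity)]
      nlinarith [mul_nonneg (sub_nonneg.2 hL2) (sub_nonneg.2 hL2), mul_pos hL0 hL0, mul_nonneg hL0.le (mul_nonneg (sub_nonneg.2 hL2) hL0.le)]
    have q6 : 0 ≤ (N : ℝ) * Fintype.card ι / L ^ (U + T) := by positivity
    calc _ ≤ N * Fintype.card ι / L ^ (U + T) * (1 / L) + N * Fintype.card ι / L ^ (U + T) * (2 / L ^ 2) := add_le_add q2 le_rfl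
      _ = N * Fintype.card ι / L ^ (U + T) * (1 / L + 2 / L ^ 2) := by ring
      _ ≤ _ := mul_le_of_le_one_right q6 q5
  have hscale : ∀ x : ℝ, x ≤ N * Fintype.card ι / L ^ (U + T) → L ^ T * x ≤ N * Fintype.card ι / L ^ U := by
    intro x hx
    calc L ^ T * x ≤ L ^ T * (N * Fintype.card ι / L ^ (U + T)) := mul_le_mul_of_nonneg_left hx hLT.le
      _ = _ := by rw [pow_add]; field_simp
  have hbd : ∀ n, |G' n| ≤ 1 := hG1
  constructor
  · have e1 : ∀ i, |S1 G z (A i) (v i)| = L ^ T * |S1 G' z (A i) (v i)| := by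
      intro i
      have e0 : S1 G z (A i) (v i) = L ^ T * S1 G' z (A i) (v i) := by
        unfold S1
        rw [mul_sum]
        apply sum_congr rfl
        intro n _
        rw [hGG n]
        ring
      rw [e0, abs_mul, abs_of_pos hLT]
    simp only [e1]
    rw [← mul_sum]
    apply hscale
    apply hsum (fun A i => S1 G' z A (v i))
    · intro A hA
      exact (c0 A hA G' hG1).1
    · intro i A hA
      unfold S1
      apply step _ _ _ (hgR A hA).1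
      intro n hn
      rw [mem_Ioc] at hn
      rw [abs_mul]
      calc |G' n| * |dI z ((n : ℤ) + v i)| ≤ 1 * Lx := by
            apply mul_le_mul (hG1 n) _ (abs_nonneg _) zero_le_one
            apply dI_le z X Lx hLx.symm hV
            have q1 := (abs_le.1 (hv i)).2
            have q2 : (n : ℤ) ≤ B * N := by exact_mod_cast hn.2.trans hA
            rw [hX]
            push_cast
            nlinarith
        _ = Lx := one_mul _
  · have e1 : ∀ i, |S2 G z (A i) (v i)| = L ^ T * |S2 G' z (A i) (v i)| := by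
      intro i
      have e0 : S2 G z (A i) (v i) = L ^ T * S2 G' z (A i) (v i) := by
        unfold S2
        rw [mul_sum]
        apply sum_congr rfl
        intro n _
        rw [hGG n]
        ring
      rw [e0, abs_mul, abs_of_pos hLT]
    simp only [e1]
    rw [← mul_sum]
    apply hscale
    apply hsum (fun A i => S2 G' z A (v i))
    · intro A hA
      exact (c0 A hA G' hG1).2
    · intro i A hA
      unfold S2
      apply step _ _ _ (hgR A hA).1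
      intro n hn
      rw [mem_Ioc] at hn
      rw [abs_mul]
      calc |G' n| * |dI z (v i - (n : ℤ))| ≤ 1 * Lx := by
            apply mul_le_mul (hG1 n) _ (abs_nonneg _) zero_le_one
            apply dI_le z X Lx hLx.symm hV
            have q1 := (abs_le.1 (hv i)).2
            have q2 : (0 : ℤ) ≤ n := by positivity
            have q3 : (0 : ℤ) ≤ B * N := by positivity
            rw [hX]
            push_cast
            nlinarith
        _ = Lx := one_mul _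

open Classical in
/-- first moments of the weighted discrepancies, for a fixed `Q` -/
theorem fixQ (B T U : ℕ) : ∃ R : ℕ, ∀ C : ℕ, ∃ K N0 : ℕ, ∀ N : ℕ, N0 ≤ N → ∀ (ι : Type) [Fintype ι] (v : ι → ℤ),
    (∀ i, |v i| ≤ B * N) → Few R C B N v →
    ∀ lam : ℕ → ℝ, (∀ q, |lam q| ≤ Real.log N ^ T) → ∀ Q : ℕ, (Q : ℝ) ≤ level K N →
    ∀ y : ι → ℕ, (∀ i, y i ≤ B * N) →
    ∑ i ∈ univ.filter (fun i => 0 < v i), |W lam Q (y i) (v i).toNat| ≤ N * Fintype.card ι / Real.log N ^ U := by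
  obtain ⟨V, hVV⟩ : ∃ V, V = U + 1 := ⟨_, rfl⟩
  obtain ⟨R, hmaxi⟩ := maxi B (T + (T + V + 5)) (V + 1)
  refine ⟨R, fun C => ?_⟩
  obtain ⟨B0, h0⟩ := hmaxi C
  obtain ⟨E1, hE1⟩ : ∃ E1, E1 = B0 + T + V + 5 := ⟨_, rfl⟩
  obtain ⟨n0, h0⟩ := h0 (E1 + 1)
  obtain ⟨K0, hK0⟩ := choice2 (E1 + 1) (T + V + 3)
  obtain ⟨n1, h1⟩ := Vz_inv_small (E1 + 1)
  obtain ⟨C0, hC0⟩ : ∃ C0 : ℕ, C0 = B + 1 := ⟨_, rfl⟩
  obtain ⟨n2, h2⟩ := large (4 + 504 * (C0 : ℝ) + Real.log C0) (n0 + n1 + 3)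
  obtain ⟨K, hK⟩ : ∃ K, K = K0 + 4 + (T + V + 4) := ⟨_, rfl⟩
  refine ⟨K, n2, fun N hN ι _ v hv hE lam hlam Q hQ y hy => ?_⟩
  obtain ⟨hN1, hLK, hL1⟩ := h2 N hN
  have hN0 : (0 : ℝ) < N := by exact_mod_cast (by omega : 0 < N)
  have hC0r : (1 : ℝ) ≤ C0 := by rw [hC0]; push_cast; linarith [(Nat.cast_nonneg B : (0 : ℝ) ≤ B)]
  have hlC0 : 0 ≤ Real.log (C0 : ℝ) := Real.log_natCast_nonneg C0
  have hexp : Real.exp 1 ≤ Real.log N := by linarith [Real.exp_one_lt_d9]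
  have hQW0 := fun Wr hWr => level_mul K K0 (T + V + 4) N hK hexp Q hQ Wr hWr
  obtain ⟨L, hL⟩ : ∃ L, L = Real.log (N : ℝ) := ⟨_, rfl⟩
  have c0 := h0 N (by omega) ι v hv hE
  rw [← hL] at hLK hL1 hlam c0 hexp hQW0 ⊢
  have hL0 : 0 < L := by linarith
  have hbig : 4 + 504 * (C0 : ℝ) ≤ L := by linarith
  -- the level of the model
  obtain ⟨z, hz⟩ : ∃ z, z = ⌈L ^ E1⌉₊ := ⟨_, rfl⟩
  have hz1 : L ^ E1 ≤ z := by rw [hz]; exact Nat.le_ceil _
  have hz2 : (z : ℝ) ≤ L ^ (E1 + 1) := by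
    have q1 : (z : ℝ) < L ^ E1 + 1 := by rw [hz]; exact Nat.ceil_lt_add_one (by positivity)
    have q2 : 1 ≤ L ^ E1 := one_le_pow₀ hL1
    rw [pow_succ]
    nlinarith
  have hzge : 1 ≤ z := by
    have : (1 : ℝ) ≤ z := (one_le_pow₀ hL1).trans hz1
    exact_mod_cast this
  -- the range
  obtain ⟨X, hX⟩ : ∃ X : ℕ, X = C0 * N := ⟨_, rfl⟩
  have hXN : N ≤ X := by rw [hX]; exact Nat.le_mul_of_pos_left _ (by omega)
  have hBX : B * N ≤ X := by rw [hX, hC0]; exact Nat.mul_le_mul_right _ (by omega)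
  obtain ⟨Lx, hLx⟩ : ∃ Lx, Lx = Real.log (X : ℝ) := ⟨_, rfl⟩
  have hLx1 : L ≤ Lx := by
    rw [hL, hLx]
    exact Real.log_le_log hN0 (by exact_mod_cast hXN)
  have hLx2 : Lx ≤ 2 * L := by
    rw [hLx, hX]
    push_cast
    rw [Real.log_mul (by positivity) hN0.ne', ← hL]
    linarith
  have hV : (Vz z)⁻¹ ≤ Lx := (h1 N (by omega) z hzge (by rw [← hL]; exact hz2)).trans (by rw [← hL]; exact hLx1)
  -- the sieve
  obtain ⟨r, hr1, hr2⟩ := hK0 L hexp z hzge hz2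
  obtain ⟨Wr, hWr⟩ : ∃ Wr : ℝ, Wr = ((z : ℝ) + 1) ^ r := ⟨_, rfl⟩
  rw [← hWr] at hr2
  have hW1 : 1 ≤ Wr := by rw [hWr]; exact one_le_pow₀ (by linarith [(Nat.cast_nonneg z : (0 : ℝ) ≤ z)])
  have hQW := hQW0 Wr hr2
  have hQX : Q ≤ X := by
    have q1 : (Q : ℝ) ≤ N := by
      refine hQ.trans ?_
      unfold level
      apply div_le_self hN0.le
      rw [← Real.exp_zero]
      apply Real.exp_le_exp.2
      positivity
    have q2 : Q ≤ N := by exact_mod_cast q1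
    omega
  have hτ : (0 : ℝ) < L ^ (T + V + 5) := by positivity
  obtain ⟨G, hG⟩ : ∃ G, G = DT lam Q (L ^ (T + V + 5)) := ⟨_, rfl⟩
  have hGb : ∀ n, |G n| ≤ L ^ (T + (T + V + 5)) := by
    intro n
    rw [hG]
    refine (DT_le lam Q _ (L ^ T) hτ.le hlam n).trans (le_of_eq ?_)
    rw [← pow_add]
  have key := c0 z ((pow_le_pow_right₀ hL1 (by omega)).trans hz1) hz2 G hGb
  -- for each member of the family
  obtain ⟨A1, hA1⟩ : ∃ A1 : ι → ℕ, A1 = fun i => y i - (v i).toNat := ⟨_, rfl⟩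
  obtain ⟨A2, hA2⟩ : ∃ A2 : ι → ℕ, A2 = fun i => (v i).toNat - 1 := ⟨_, rfl⟩
  obtain ⟨A3, hA3⟩ : ∃ A3 : ι → ℕ, A3 = fun i => (v i).toNat - 1 - y i := ⟨_, rfl⟩
  have hvB : ∀ i, (v i).toNat ≤ B * N := by
    intro i
    have q1 := (abs_le.1 (hv i)).2
    have q2 : (0 : ℤ) ≤ B * N := by positivity
    zify
    rw [Int.toNat_eq_max]
    exact max_le q1 q2
  have hA1B : ∀ i, A1 i ≤ B * N := by
    intro i
    rw [hA1]
    exact (Nat.sub_le _ _).trans (hy i)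
  have hA2B : ∀ i, A2 i ≤ B * N := by
    intro i
    rw [hA2]
    exact (Nat.sub_le _ _).trans (hvB i)
  have hA3B : ∀ i, A3 i ≤ B * N := by
    intro i
    rw [hA3]
    exact ((Nat.sub_le _ _).trans (Nat.sub_le _ _)).trans (hvB i)
  have hone : ∀ i ∈ univ.filter (fun i => 0 < v i), |W lam Q (y i) (v i).toNat| ≤
      |S1 G z (A1 i) (v i)| + (|S2 G z (A2 i) (v i)| + |S2 G z (A3 i) (v i)|) + N / L ^ V := by
    intro i hi
    rw [mem_filter] at hi
    obtain ⟨a, ha⟩ : ∃ a, a = (v i).toNat := ⟨_, rfl⟩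
    have hav : ((a : ℕ) : ℤ) = v i := by rw [ha]; exact Int.toNat_of_nonneg hi.2.le
    have ha1 : 1 ≤ a := by
      have := hi.2
      omega
    have haX : a ≤ X := by rw [ha]; exact (hvB i).trans hBX
    have hyX : y i ≤ X := (hy i).trans hBX
    have d1 := det1 lam Q (y i) a z r X (L ^ T) Lx Lx ha1 hzge haX hyX hQX hlam hV hLx.symm le_rfl (by linarith)
    have d2 := three lam Q a (y i) z X (L ^ (T + V + 5)) (L ^ T) Lx hτ hlam ha1 haX hyX hLx.symm hV (by linarith)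
    rw [← hWr] at d1
    have d3 : 1 + Real.log (X : ℝ) ≤ 2 * Lx := by rw [← hLx]; linarith
    have d4 : Lx * (L ^ T / L ^ (T + V + 5) * (X * (1 + Real.log X) ^ 3)) ≤ Lx * (L ^ T / L ^ (T + V + 5) * (X * (2 * Lx) ^ 3)) := by
      have g0 := log1_nonneg X
      have g1 : 0 ≤ Lx := by linarith
      gcongr
    have d5 := fin_num L Lx N X Q Wr (Real.exp (3 * (1 + Real.log z) - r)) z 0 0 0 C0 T V E1 hL1 (by linarith) hLx2 hN0
      (by rw [hX]; push_cast; rfl) (by linarith) (Nat.cast_nonneg Q) hW1 (Real.exp_pos _).le hr1 (by exact_mod_cast hzge) hz1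
      (by omega) hQW hbig (by positivity) (by positivity) (by positivity)
    rw [hA1, hA2, hA3]
    simp only
    rw [← ha]
    unfold W S1 S2
    rw [hG]
    rw [hav] at d2
    linarith
  refine (sum_le_sum hone).trans ?_
  have hsub : ∀ F : ι → ℝ, (∀ i, 0 ≤ F i) → ∑ i ∈ univ.filter (fun i => 0 < v i), F i ≤ ∑ i, F i := by
    intro F hF
    exact sum_le_sum_of_subset_of_nonneg (filter_subset _ _) (fun i _ _ => hF i)
  refine (hsub _ (fun i => by positivity)).trans ?_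
  rw [sum_add_distrib, sum_add_distrib, sum_add_distrib, sum_const, card_univ, nsmul_eq_mul]
  have k1 := (key A1 hA1B).1
  have k2 := (key A2 hA2B).2
  have k3 := (key A3 hA3B).2
  have e1 : (N : ℝ) * Fintype.card ι / L ^ (V + 1) = N * Fintype.card ι / L ^ U * (1 / L ^ 2) := by
    rw [hVV, show U + 1 + 1 = U + 2 by ring, pow_add]
    field_simp
  have e2 : (Fintype.card ι : ℝ) * (N / L ^ V) = N * Fintype.card ι / L ^ U * (1 / L) := by
    rw [hVV, pow_succ]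
    field_simp
  rw [e1] at k1 k2 k3
  rw [e2]
  have hL4 : 4 ≤ L := by linarith
  have q5 : 3 * (1 / L ^ 2) + 1 / L ≤ 1 := by
    have e3 : 3 * (1 / L ^ 2) + 1 / L = (3 + L) / L ^ 2 := by field_simp
    rw [e3, div_le_one (by positivity)]
    nlinarith
  have q6 : 0 ≤ (N : ℝ) * Fintype.card ι / L ^ U := by positivity
  calc _ ≤ N * Fintype.card ι / L ^ U * (1 / L ^ 2) + (N * Fintype.card ι / L ^ U * (1 / L ^ 2) + N * Fintype.card ι / L ^ U * (1 / L ^ 2)) +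
        N * Fintype.card ι / L ^ U * (1 / L) := by linarith
    _ = N * Fintype.card ι / L ^ U * (3 * (1 / L ^ 2) + 1 / L) := by ring
    _ ≤ _ := mul_le_of_le_one_right q6 q5

/-- lengths depending on the modulus, for a fixed `Q` -/
theorem cellQ (B T U : ℕ) : ∃ R : ℕ, ∀ C : ℕ, ∃ K N0 : ℕ, ∀ N : ℕ, N0 ≤ N → ∀ (ι : Type) [Fintype ι] (v : ι → ℤ),
    (∀ i, |v i| ≤ B * N) → Few R C B N v →
    ∀ lam : ℕ → ℝ, (∀ q, |lam q| ≤ Real.log N ^ T) → ∀ Q : ℕ, (Q : ℝ) ≤ level K N →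
    ∀ y : ℕ → ℕ, (∀ q, y q ≤ B * N) →
    ∑ i ∈ univ.filter (fun i => 0 < v i), |WW lam y Q (v i).toNat| ≤ N * Fintype.card ι / Real.log N ^ U := by
  classical
  obtain ⟨k, hk⟩ : ∃ k, k = T + U + 5 := ⟨_, rfl⟩
  obtain ⟨U', hU'⟩ : ∃ U', U' = U + k + 2 := ⟨_, rfl⟩
  obtain ⟨R₁, hfix⟩ := fixQ B T U'
  refine ⟨R₁, fun C => ?_⟩
  obtain ⟨K1, n0, h0⟩ := hfix C
  obtain ⟨n2, h2⟩ := large (max (20 + B) (Real.log (B + 1))) (n0 + 3)
  refine ⟨max K1 k, n2, fun N hN ι _ v hv hE lam hlam Q hQ y hy => ?_⟩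
  obtain ⟨hN1, hLK, hL1⟩ := h2 N hN
  have hLK1 : 20 + (B : ℝ) ≤ Real.log N := (le_max_left _ _).trans hLK
  have hB0 : (0 : ℝ) ≤ B := Nat.cast_nonneg _
  have hexp : Real.exp 1 ≤ Real.log N := by linarith [Real.exp_one_lt_d9]
  have hQ1 : (Q : ℝ) ≤ level K1 N := hQ.trans (level_anti _ _ _ (le_max_left _ _))
  have hQ2 : (Q : ℝ) ≤ N / Real.log N ^ k := hQ.trans (level_le _ _ _ (le_max_right _ _) hexp)
  have hQN : (Q : ℝ) ≤ N := hQ.trans (level_leN _ _)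
  have c0 := fun lam' hlam' => h0 N (by omega) ι v hv hE lam' hlam' Q hQ1
  obtain ⟨L, hL⟩ : ∃ L, L = Real.log (N : ℝ) := ⟨_, rfl⟩
  rw [← hL] at hLK hL1 hlam c0 hexp hQ2 hLK1 ⊢
  have hLl : Real.log ((B : ℝ) + 1) ≤ L := (le_max_right _ _).trans hLK
  have hL0 : 0 < L := by linarith
  have hN0 : (0 : ℝ) < N := by exact_mod_cast (by omega : 0 < N)
  obtain ⟨X, hX⟩ : ∃ X : ℕ, X = (B + 1) * N := ⟨_, rfl⟩
  obtain ⟨Lx, hLx⟩ : ∃ Lx, Lx = Real.log (X : ℝ) := ⟨_, rfl⟩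
  have hXN : (X : ℝ) = (B + 1) * N := by rw [hX]; push_cast; ring
  have hNX : N ≤ X := by rw [hX]; exact Nat.le_mul_of_pos_left _ (by omega)
  have hLx2 : Lx ≤ 2 * L := by
    rw [hLx, hXN, Real.log_mul (by positivity) hN0.ne', ← hL]
    linarith
  have hLx1 : L ≤ Lx := by
    rw [hL, hLx]
    exact Real.log_le_log hN0 (by exact_mod_cast hNX)
  have hQX : Q ≤ X := by
    have : Q ≤ N := by exact_mod_cast hQN
    omega
  have hBX : B * N ≤ X := by rw [hX]; exact Nat.mul_le_mul_right _ (by omega)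
  -- cells
  obtain ⟨D, hD⟩ : ∃ D : ℕ, D = ⌊(N : ℝ) / L ^ k⌋₊ := ⟨_, rfl⟩
  have hD1 : (D : ℝ) ≤ N / L ^ k := by rw [hD]; exact Nat.floor_le (by positivity)
  have hD2 : (N : ℝ) / L ^ k < D + 1 := by rw [hD]; exact Nat.lt_floor_add_one _
  obtain ⟨J, hJ⟩ : ∃ J : ℕ, J = B * N / (D + 1) := ⟨_, rfl⟩
  have hJ1 : (J : ℝ) ≤ B * L ^ k := by
    have q1 : (J : ℝ) ≤ ((B * N : ℕ) : ℝ) / ((D + 1 : ℕ) : ℝ) := by rw [hJ]; exact Nat.cast_div_le
    refine q1.trans ?_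
    push_cast
    rw [div_le_iff₀ (by positivity)]
    rw [div_lt_iff₀ (by positivity)] at hD2
    nlinarith
  obtain ⟨g, hg⟩ : ∃ g : ℕ → ℕ, g = fun A => (D + 1) * (A / (D + 1)) := ⟨_, rfl⟩
  obtain ⟨R, hR⟩ : ∃ R : Finset ℕ, R = ((range (J + 1)).image (fun j => (D + 1) * j)).filter (fun r => r ≤ B * N) := ⟨_, rfl⟩
  have hRc : (R.card : ℝ) ≤ L ^ (k + 1) := by
    have q1 : R.card ≤ J + 1 := by
      rw [hR]
      refine (card_filter_le _ _).trans ?_
      refine card_image_le.trans ?_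
      rw [card_range]
    have q2 : (1 : ℝ) ≤ L ^ k := one_le_pow₀ hL1
    calc (R.card : ℝ) ≤ J + 1 := by exact_mod_cast q1
      _ ≤ B * L ^ k + L ^ k := add_le_add hJ1 q2
      _ = (B + 1) * L ^ k := by ring
      _ ≤ L * L ^ k := mul_le_mul_of_nonneg_right (by linarith) (by positivity)
      _ = L ^ (k + 1) := by ring
  have hgle : ∀ A, g A ≤ A := by
    intro A
    rw [hg]
    exact Nat.mul_div_le _ _
  have hgR : ∀ A ≤ B * N, g A ∈ R := by
    intro A hA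
    rw [hR, mem_filter]
    refine ⟨?_, (hgle A).trans hA⟩
    rw [hg]
    refine mem_image.2 ⟨A / (D + 1), ?_, rfl⟩
    rw [mem_range, hJ]
    exact Nat.lt_succ_of_le (Nat.div_le_div_right hA)
  have hgD : ∀ A, A - g A ≤ D := by
    intro A
    rw [hg]
    simp only
    have q1 := Nat.div_add_mod A (D + 1)
    have q2 := Nat.mod_lt A (by omega : D + 1 > 0)
    omega
  -- each member
  obtain ⟨err, herr⟩ : ∃ err, err = L ^ T * (Lx * (D * (1 + Lx) + Q) + D * (1 + Lx) ^ 2) := ⟨_, rfl⟩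
  have hone : ∀ a : ℕ, |WW lam y Q a| ≤ ∑ r ∈ R, |W (fun q => if g (y q) = r then lam q else 0) Q r a| + err := by
    intro a
    have q1 := WW_cell lam y g Q a X D (L ^ T) Lx hQX (fun q => (hy q).trans hBX) hgle hgD hlam hLx.symm (by linarith)
    rw [WW_split lam (fun q => g (y q)) Q a R (fun q => hgR _ (hy q))] at q1
    have q2 := abs_sum_le_sum_abs (fun r => W (fun q => if g (y q) = r then lam q else 0) Q r a) R
    rw [herr]
    linarith
  have herr2 : err ≤ 17 * N / L ^ (U + 3) := by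
    have e1 : 1 + Lx ≤ 3 * L := by linarith
    have e2 : 0 ≤ Lx := by linarith
    calc err ≤ L ^ T * ((2 * L) * (N / L ^ k * (3 * L) + N / L ^ k) + N / L ^ k * (3 * L) ^ 2) := by
          rw [herr]; gcongr
      _ ≤ L ^ T * (17 * L ^ 2 * (N / L ^ k)) := by
          apply mul_le_mul_of_nonneg_left _ (by positivity)
          have : 0 ≤ (N : ℝ) / L ^ k := by positivity
          nlinarith [mul_nonneg this (by nlinarith : (0 : ℝ) ≤ 2 * L ^ 2 - 2 * L)]
      _ = _ := by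
          rw [hk, show T + U + 5 = T + 2 + (U + 3) by ring, pow_add, pow_add]
          field_simp
  have hbound : ∀ r ∈ R, ∑ i ∈ univ.filter (fun i => 0 < v i),
      |W (fun q => if g (y q) = r then lam q else 0) Q r (v i).toNat| ≤ N * Fintype.card ι / L ^ U' := by
    intro r hr
    rw [hR, mem_filter] at hr
    exact c0 (fun q => if g (y q) = r then lam q else 0) (by
      intro q

      split_ifs
      · exact hlam q
      · rw [abs_zero]; positivity) (fun _ => r) (fun _ => hr.2)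
  refine (sum_le_sum fun i _ => hone _).trans ?_
  rw [sum_add_distrib, sum_comm, sum_const, nsmul_eq_mul]
  have k1 : ∑ r ∈ R, ∑ i ∈ univ.filter (fun i => 0 < v i),
      |W (fun q => if g (y q) = r then lam q else 0) Q r (v i).toNat| ≤ L ^ (k + 1) * (N * Fintype.card ι / L ^ U') := by
    refine (sum_le_sum hbound).trans ?_
    rw [sum_const, nsmul_eq_mul]
    exact mul_le_mul_of_nonneg_right hRc (by positivity)
  have k2 : ((univ.filter (fun i => 0 < v i)).card : ℝ) * err ≤ Fintype.card ι * (17 * N / L ^ (U + 3)) := by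
    apply mul_le_mul _ herr2 _ (Nat.cast_nonneg _)
    · exact_mod_cast card_le_univ _
    · rw [herr]
      have : 0 ≤ Lx := by linarith
      positivity
  have e1 : L ^ (k + 1) * (N * Fintype.card ι / L ^ U') = N * Fintype.card ι / L ^ U * (1 / L) := by
    rw [hU', show U + k + 2 = U + (k + 1) + 1 by ring, pow_succ L (U + (k + 1)), pow_add L U]
    field_simp
  have e2 : (Fintype.card ι : ℝ) * (17 * N / L ^ (U + 3)) = N * Fintype.card ι / L ^ U * (17 / L ^ 3) := by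
    rw [pow_add]
    field_simp
  rw [e1] at k1
  rw [e2] at k2
  have q6 : 1 / L + 17 / L ^ 3 ≤ 1 := by
    have e3 : 1 / L + 17 / L ^ 3 = (L ^ 2 + 17) / L ^ 3 := by field_simp
    rw [e3, div_le_one (by positivity)]
    nlinarith [mul_pos hL0 hL0, mul_nonneg hL0.le (mul_pos hL0 hL0).le]
  have q7 : 0 ≤ (N : ℝ) * Fintype.card ι / L ^ U := by positivity
  calc _ ≤ N * Fintype.card ι / L ^ U * (1 / L) + N * Fintype.card ι / L ^ U * (17 / L ^ 3) := add_le_add k1 k2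
    _ = N * Fintype.card ι / L ^ U * (1 / L + 17 / L ^ 3) := by ring
    _ ≤ _ := mul_le_of_le_one_right q7 q6

/-- all numbers of moduli -/
theorem allQ (B T U : ℕ) : ∃ R : ℕ, ∀ C : ℕ, ∃ K N0 : ℕ, ∀ N : ℕ, N0 ≤ N → ∀ (ι : Type) [Fintype ι] (v : ι → ℤ),
    (∀ i, |v i| ≤ B * N) → Few R C B N v →
    ∀ lam : ℕ → ℝ, (∀ q, |lam q| ≤ Real.log N ^ T) → ∀ Q : ι → ℕ, (∀ i, (Q i : ℝ) ≤ level K N) →
    (∀ y : ι → ℕ, (∀ i, y i ≤ B * N) →
      ∑ i ∈ univ.filter (fun i => 0 < v i), |W lam (Q i) (y i) (v i).toNat| ≤ N * Fintype.card ι / Real.log N ^ U) ∧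
    (∀ y : ℕ → ℕ, (∀ q, y q ≤ B * N) →
      ∑ i ∈ univ.filter (fun i => 0 < v i), |WW lam y (Q i) (v i).toNat| ≤ N * Fintype.card ι / Real.log N ^ U) := by
  classical
  obtain ⟨U', n1, hnet⟩ := netQ B T U
  obtain ⟨R₁, hfix⟩ := fixQ B T U'
  obtain ⟨R₂, hcell⟩ := cellQ B T U'
  refine ⟨max R₁ R₂, fun C => ?_⟩
  obtain ⟨K1, n2, h1⟩ := hfix C
  obtain ⟨K2, n3, h2⟩ := hcell C
  obtain ⟨n4, h4⟩ := large 3 (n1 + n2 + n3 + 3)
  refine ⟨max K1 K2, n4, fun N hN ι _ v hv hE lam hlam Q hQ => ?_⟩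
  obtain ⟨hN1, hL3, hL1⟩ := h4 N hN
  have c1 := h1 N (by omega) ι v hv (Few_anti _ _ _ _ _ v (le_max_left _ _) hL1 hE) lam hlam
  have c2 := h2 N (by omega) ι v hv (Few_anti _ _ _ _ _ v (le_max_right _ _) hL1 hE) lam hlam
  have c3 := hnet N (by omega) ι
  have hN0 : (0 : ℝ) < N := by exact_mod_cast (by omega : 0 < N)
  obtain ⟨M, hM⟩ : ∃ M : ℕ, M = ⌊level (max K1 K2) N⌋₊ := ⟨_, rfl⟩
  have hlev0 : 0 ≤ level (max K1 K2) N := by unfold level; positivity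
  have hM1 : ∀ A : ℕ, A ≤ M → (A : ℝ) ≤ level (max K1 K2) N := by
    intro A hA
    rw [hM] at hA
    exact (Nat.le_floor_iff hlev0).1 hA
  have hMQ : ∀ i, Q i ≤ M := fun i => by rw [hM]; exact Nat.le_floor (hQ i)
  have hMN : M ≤ N := by
    have : (M : ℝ) ≤ N := (hM1 M le_rfl).trans (level_leN _ _)
    exact_mod_cast this
  have hMX : M ≤ (B + 1) * N := hMN.trans (Nat.le_mul_of_pos_left _ (by omega))
  have hBX : B * N ≤ (B + 1) * N := Nat.mul_le_mul_right _ (by omega)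
  have hlogX : 1 ≤ Real.log (((B + 1) * N : ℕ) : ℝ) := by
    refine hL1.trans ?_
    apply Real.log_le_log hN0
    exact_mod_cast (Nat.le_mul_of_pos_left _ (by omega) : N ≤ (B + 1) * N)
  have hfil : ∀ F : ι → ℝ, ∑ i, |(if 0 < v i then F i else 0)| = ∑ i ∈ univ.filter (fun i => 0 < v i), |F i| := by
    intro F
    rw [sum_filter]
    apply sum_congr rfl
    intro i _
    split_ifs
    · rfl
    · exact abs_zero
  constructor
  · intro y hy
    have := c3 (fun A i => if 0 < v i then W lam A (y i) (v i).toNat else 0) M hMX (by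
      intro A hA
      rw [hfil]
      exact c1 A ((hM1 A hA).trans (level_anti _ _ _ (le_max_left _ _))) y hy) (by
      intro i A hA A' hA'

      split_ifs
      · exact WW_net lam (fun _ => y i) A' A (v i).toNat ((B + 1) * N) (Real.log N ^ T) _ hA' (hA.trans hMX)
          (fun _ => (hy i).trans hBX) hlam rfl hlogX
      · rw [sub_zero, abs_zero]
        have : 0 ≤ Real.log (((B + 1) * N : ℕ) : ℝ) := by linarith
        positivity) Q hMQ
    rw [hfil] at this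
    exact this
  · intro y hy
    have := c3 (fun A i => if 0 < v i then WW lam y A (v i).toNat else 0) M hMX (by
      intro A hA
      rw [hfil]
      exact c2 A ((hM1 A hA).trans (level_anti _ _ _ (le_max_right _ _))) y hy) (by
      intro i A hA A' hA'

      split_ifs
      · exact WW_net lam y A' A (v i).toNat ((B + 1) * N) (Real.log N ^ T) _ hA' (hA.trans hMX)
          (fun q => (hy q).trans hBX) hlam rfl hlogX
      · rw [sub_zero, abs_zero]
        have : 0 ≤ Real.log (((B + 1) * N : ℕ) : ℝ) := by linarith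
        positivity) Q hMQ
    rw [hfil] at this
    exact this

/-- weights bounded by powers of the logarithm and of the divisor function -/
theorem allW (B T U : ℕ) : ∃ R : ℕ, ∀ C : ℕ, ∃ K N0 : ℕ, ∀ N : ℕ, N0 ≤ N → ∀ (ι : Type) [Fintype ι] (v : ι → ℤ),
    (∀ i, |v i| ≤ B * N) → Few R C B N v →
    ∀ lam : ℕ → ℝ, (∀ q, |lam q| ≤ Real.log N ^ T * (q.divisors.card : ℝ) ^ T) → ∀ Q : ι → ℕ, (∀ i, (Q i : ℝ) ≤ level K N) →
    (∀ y : ι → ℕ, (∀ i, y i ≤ B * N) →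
      ∑ i ∈ univ.filter (fun i => 0 < v i), |W lam (Q i) (y i) (v i).toNat| ≤ N * Fintype.card ι / Real.log N ^ U) ∧
    (∀ y : ℕ → ℕ, (∀ q, y q ≤ B * N) →
      ∑ i ∈ univ.filter (fun i => 0 < v i), |WW lam y (Q i) (v i).toNat| ≤ N * Fintype.card ι / Real.log N ^ U) := by
  classical
  obtain ⟨m, hm⟩ : ∃ m, m = 2 ^ (2 * T) := ⟨_, rfl⟩
  obtain ⟨V0, hV0⟩ : ∃ V0, V0 = T + m + U + 3 := ⟨_, rfl⟩
  obtain ⟨R₁, hall⟩ := allQ B (T + V0) (U + 1)
  refine ⟨R₁, fun C => ?_⟩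
  obtain ⟨K, n1, h1⟩ := hall C
  obtain ⟨n4, h4⟩ := large (max (20 * (B + 1) * 3 ^ m + 2) (Real.log (B + 1))) (n1 + 3)
  refine ⟨K, n4, fun N hN ι _ v hv hE lam hlam Q hQ => ?_⟩
  obtain ⟨hN1, hLK, hL1⟩ := h4 N hN
  have c1 := h1 N (by omega) ι v hv hE
  have hN0 : (0 : ℝ) < N := by exact_mod_cast (by omega : 0 < N)
  have hQN : ∀ i, (Q i : ℝ) ≤ N := fun i => (hQ i).trans (level_leN _ _)
  obtain ⟨L, hL⟩ : ∃ L, L = Real.log (N : ℝ) := ⟨_, rfl⟩
  rw [← hL] at hLK hL1 hlam c1 ⊢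
  have hB0 : (0 : ℝ) ≤ B := Nat.cast_nonneg _
  have hLl : Real.log ((B : ℝ) + 1) ≤ L := (le_max_right _ _).trans hLK
  have hLb : 20 * ((B : ℝ) + 1) * 3 ^ m + 2 ≤ L := (le_max_left _ _).trans hLK
  have h3m : (0 : ℝ) ≤ 20 * ((B : ℝ) + 1) * 3 ^ m := by positivity
  have hL2 : 2 ≤ L := by linarith
  have hL0 : 0 < L := by linarith
  obtain ⟨X, hX⟩ : ∃ X : ℕ, X = (B + 1) * N := ⟨_, rfl⟩
  obtain ⟨Lx, hLx⟩ : ∃ Lx, Lx = Real.log (X : ℝ) := ⟨_, rfl⟩
  have hXN : (X : ℝ) = (B + 1) * N := by rw [hX]; push_cast; ring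
  have hNX : N ≤ X := by rw [hX]; exact Nat.le_mul_of_pos_left _ (by omega)
  have hLx2 : Lx ≤ 2 * L := by
    rw [hLx, hXN, Real.log_mul (by positivity) hN0.ne', ← hL]
    linarith
  have hLx1 : L ≤ Lx := by
    rw [hL, hLx]
    exact Real.log_le_log hN0 (by exact_mod_cast hNX)
  have hQX : ∀ i, Q i ≤ X := by
    intro i
    have : Q i ≤ N := by exact_mod_cast hQN i
    omega
  have hBX : B * N ≤ X := by rw [hX]; exact Nat.mul_le_mul_right _ (by omega)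
  obtain ⟨lam1, hlam1⟩ : ∃ lam1 : ℕ → ℝ, lam1 = fun q => if (q.divisors.card : ℝ) ^ T ≤ L ^ V0 then lam q else 0 := ⟨_, rfl⟩
  have hlam1b : ∀ q, |lam1 q| ≤ L ^ (T + V0) := by
    intro q
    rw [hlam1]
    simp only
    split_ifs with h
    · refine (hlam q).trans ?_
      rw [pow_add]
      exact mul_le_mul_of_nonneg_left h (by positivity)
    · rw [abs_zero]; positivity
  obtain ⟨err, herr⟩ : ∃ err, err = 5 * L ^ T * Lx * X / L ^ V0 * (1 + Lx) ^ (2 ^ (2 * T)) := ⟨_, rfl⟩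
  have herr2 : err ≤ 1 / 2 * (N / L ^ U) := by
    have e1 : 1 + Lx ≤ 3 * L := by linarith
    have e2 : 0 ≤ Lx := by linarith
    calc err ≤ 5 * L ^ T * (2 * L) * ((B + 1) * N) / L ^ V0 * (3 * L) ^ m := by
          rw [herr, ← hm, hXN]; gcongr
      _ = 10 * (B + 1) * 3 ^ m * (N / L ^ U) * (1 / L ^ 2) := by
          rw [hV0, mul_pow, show T + m + U + 3 = T + m + U + 2 + 1 by ring, pow_succ L (T + m + U + 2), pow_add L (T + m + U), pow_add, pow_add]
          field_simp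
          ring
      _ ≤ 1 / 2 * (N / L ^ U) := by
          have e3 : 10 * ((B : ℝ) + 1) * 3 ^ m * (1 / L ^ 2) ≤ 1 / 2 := by
            rw [mul_one_div, div_le_iff₀ (by positivity)]
            nlinarith
          have e4 : 0 ≤ (N : ℝ) / L ^ U := by positivity
          calc 10 * (B + 1) * 3 ^ m * (N / L ^ U) * (1 / L ^ 2) = 10 * ((B : ℝ) + 1) * 3 ^ m * (1 / L ^ 2) * (N / L ^ U) := by ring
            _ ≤ _ := mul_le_mul_of_nonneg_right e3 e4
  have hone : ∀ (y : ℕ → ℕ) (i : ι) (a : ℕ), (∀ q, y q ≤ B * N) → |WW lam y (Q i) a| ≤ |WW lam1 y (Q i) a| + err := by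
    intro y i a hy
    have := tail_le lam y (Q i) a X T (L ^ T) Lx (L ^ V0) (hQX i) (fun q => (hy q).trans hBX) (by positivity) (by positivity)
      hlam hLx.symm (by linarith)
    rw [hlam1, herr]
    exact this
  have hfin : ∀ (F G : ι → ℝ), (∀ i, F i ≤ G i + err) → ∑ i ∈ univ.filter (fun i => 0 < v i), G i ≤ N * Fintype.card ι / L ^ (U + 1) →
      ∑ i ∈ univ.filter (fun i => 0 < v i), F i ≤ N * Fintype.card ι / L ^ U := by
    intro F G hF hG
    refine (sum_le_sum fun i _ => hF i).trans ?_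
    rw [sum_add_distrib, sum_const, nsmul_eq_mul]
    have herr0 : 0 ≤ err := by
      rw [herr]
      have : 0 ≤ Lx := by linarith
      positivity
    have k2 : ((univ.filter (fun i => 0 < v i)).card : ℝ) * err ≤ Fintype.card ι * (1 / 2 * (N / L ^ U)) := by
      apply mul_le_mul _ herr2 herr0 (Nat.cast_nonneg _)
      exact_mod_cast card_le_univ _
    have k3 : (N : ℝ) * Fintype.card ι / L ^ (U + 1) ≤ 1 / 2 * (N * Fintype.card ι / L ^ U) := by
      have e : (N : ℝ) * Fintype.card ι / L ^ (U + 1) = 1 / L * (N * Fintype.card ι / L ^ U) := by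
        rw [pow_succ]; field_simp
      rw [e]
      apply mul_le_mul_of_nonneg_right _ (by positivity)
      exact one_div_le_one_div_of_le (by norm_num) hL2
    calc _ ≤ 1 / 2 * (N * Fintype.card ι / L ^ U) + Fintype.card ι * (1 / 2 * (N / L ^ U)) := add_le_add (hG.trans k3) k2
      _ = _ := by ring
  constructor
  · intro y hy
    have c2 := (c1 lam1 hlam1b Q hQ).1 y hy
    exact hfin _ _ (fun i => hone (fun _ => y i) i (v i).toNat (fun _ => hy i)) c2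
  · intro y hy
    have c2 := (c1 lam1 hlam1b Q hQ).2 y hy
    exact hfin _ _ (fun i => hone y i (v i).toNat hy) c2

open Classical in
/-- few exceptions -/
theorem few (B T U : ℕ) : ∃ R : ℕ, ∀ C : ℕ, ∃ K N0 : ℕ, ∀ N : ℕ, N0 ≤ N → ∀ (ι : Type) [Fintype ι] (v : ι → ℤ),
    (∀ i, |v i| ≤ B * N) → Few R C B N v →
    ∀ lam : ℕ → ℝ, (∀ q, |lam q| ≤ Real.log N ^ T * (q.divisors.card : ℝ) ^ T) →
    ((univ.filter (fun i : ι => 0 < v i ∧ ∃ Q : ℕ, (Q : ℝ) ≤ level K N ∧ ∃ y : ℕ, y ≤ B * N ∧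
      (N : ℝ) / Real.log N ^ U < |W lam Q y (v i).toNat|)).card : ℝ) ≤ Fintype.card ι / Real.log N ^ U ∧
    ∀ y : ℕ → ℕ, (∀ q, y q ≤ B * N) →
    ((univ.filter (fun i : ι => 0 < v i ∧ ∃ Q : ℕ, (Q : ℝ) ≤ level K N ∧
      (N : ℝ) / Real.log N ^ U < |WW lam y Q (v i).toNat|)).card : ℝ) ≤ Fintype.card ι / Real.log N ^ U := by
  obtain ⟨R₁, hall⟩ := allW B T (2 * U)
  refine ⟨R₁, fun C => ?_⟩
  obtain ⟨K, n0, h0⟩ := hall C
  obtain ⟨n1, h1⟩ := large 3 (n0 + 3)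
  refine ⟨K, n1, fun N hN ι _ v hv hE lam hlam => ?_⟩
  obtain ⟨hN1, hL3, hL1⟩ := h1 N hN
  have c0 := h0 N (by omega) ι v hv hE lam hlam
  have hN0 : (0 : ℝ) < N := by exact_mod_cast (by omega : 0 < N)
  obtain ⟨L, hL⟩ : ∃ L, L = Real.log (N : ℝ) := ⟨_, rfl⟩
  rw [← hL] at hL3 hL1 c0 ⊢
  have hL0 : 0 < L := by linarith
  have hlev : (0 : ℝ) ≤ level K N := by unfold level; positivity
  have e : (N : ℝ) * Fintype.card ι / L ^ (2 * U) / (N / L ^ U) = Fintype.card ι / L ^ U := by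
    rw [two_mul, pow_add]
    field_simp
  constructor
  · have hch : ∀ i : ι, ∃ t : ℕ × ℕ, (t.1 : ℝ) ≤ level K N ∧ t.2 ≤ B * N ∧
        ((∃ Q : ℕ, (Q : ℝ) ≤ level K N ∧ ∃ y : ℕ, y ≤ B * N ∧ (N : ℝ) / L ^ U < |W lam Q y (v i).toNat|) →
          (N : ℝ) / L ^ U < |W lam t.1 t.2 (v i).toNat|) := by
      intro i
      by_cases h : ∃ Q : ℕ, (Q : ℝ) ≤ level K N ∧ ∃ y : ℕ, y ≤ B * N ∧ (N : ℝ) / L ^ U < |W lam Q y (v i).toNat|
      · obtain ⟨Q, h1, y, h2, h3⟩ := h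
        exact ⟨(Q, y), h1, h2, fun _ => h3⟩
      · exact ⟨(0, 0), by simpa using hlev, Nat.zero_le _, fun h' => absurd h' h⟩
    choose t ht1 ht2 ht3 using hch
    have k1 := (c0 (fun i => (t i).1) ht1).1 (fun i => (t i).2) ht2
    rw [sum_filter] at k1
    have := markov (fun i : ι => 0 < v i ∧ ∃ Q : ℕ, (Q : ℝ) ≤ level K N ∧ ∃ y : ℕ, y ≤ B * N ∧
      (N : ℝ) / L ^ U < |W lam Q y (v i).toNat|) _ (N / L ^ U) _ (by positivity) (by
        rintro i ⟨hi, hi2⟩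
        rw [if_pos hi]
        exact (ht3 i hi2).le) (by
        intro i
        split_ifs <;> positivity) k1
    rw [e] at this
    exact this
  · intro y hy
    have hch : ∀ i : ι, ∃ t : ℕ, (t : ℝ) ≤ level K N ∧
        ((∃ Q : ℕ, (Q : ℝ) ≤ level K N ∧ (N : ℝ) / L ^ U < |WW lam y Q (v i).toNat|) →
          (N : ℝ) / L ^ U < |WW lam y t (v i).toNat|) := by
      intro i
      by_cases h : ∃ Q : ℕ, (Q : ℝ) ≤ level K N ∧ (N : ℝ) / L ^ U < |WW lam y Q (v i).toNat|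
      · obtain ⟨Q, h1, h3⟩ := h
        exact ⟨Q, h1, fun _ => h3⟩
      · exact ⟨0, by simpa using hlev, fun h' => absurd h' h⟩
    choose t ht1 ht3 using hch
    have k1 := (c0 t ht1).2 y hy
    rw [sum_filter] at k1
    have := markov (fun i : ι => 0 < v i ∧ ∃ Q : ℕ, (Q : ℝ) ≤ level K N ∧
      (N : ℝ) / L ^ U < |WW lam y Q (v i).toNat|) _ (N / L ^ U) _ (by positivity) (by
        rintro i ⟨hi, hi2⟩
        rw [if_pos hi]
        exact (ht3 i hi2).le) (by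
        intro i
        split_ifs <;> positivity) k1
    rw [e] at this
    exact this

open Classical in
/-- the dual form: absolute values over the moduli -/
theorem dual (B T U : ℕ) : ∃ R : ℕ, ∀ C : ℕ, ∃ K N0 : ℕ, ∀ N : ℕ, N0 ≤ N → ∀ (ι : Type) [Fintype ι] (v : ι → ℤ),
    (∀ i, |v i| ≤ B * N) → Few R C B N v →
    ∀ c : ι → ℝ, (∀ i, |c i| ≤ Real.log N ^ T) → ∀ Q : ℕ, (Q : ℝ) ≤ level K N → ∀ y : ℕ → ℕ, (∀ q, y q ≤ B * N) →
    ∑ q ∈ Icc 1 Q, (q.divisors.card : ℝ) ^ T * |∑ i ∈ univ.filter (fun i => 0 < v i ∧ (v i).toNat.Coprime q),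
      c i * (Fu (fun n => ArithmeticFunction.vonMangoldt n) (y q) q (v i).toNat - (y q : ℝ) / Nat.totient q)| ≤
      N * Fintype.card ι / Real.log N ^ U := by
  obtain ⟨R₁, hall⟩ := allW B T (U + T)
  refine ⟨R₁, fun C => ?_⟩
  obtain ⟨K, n0, h0⟩ := hall C
  obtain ⟨n1, h1⟩ := large 3 (n0 + 3)
  refine ⟨K, n1, fun N hN ι _ v hv hE c hc Q hQ y hy => ?_⟩
  obtain ⟨hN1, hL3, hL1⟩ := h1 N hN
  have c0 := h0 N (by omega) ι v hv hE
  have hN0 : (0 : ℝ) < N := by exact_mod_cast (by omega : 0 < N)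
  obtain ⟨L, hL⟩ : ∃ L, L = Real.log (N : ℝ) := ⟨_, rfl⟩
  rw [← hL] at hL3 hL1 c0 hc ⊢
  have hL0 : 0 < L := by linarith
  obtain ⟨F, hF⟩ : ∃ F : ℕ → ι → ℝ, F = fun q i =>
    Fu (fun n => ArithmeticFunction.vonMangoldt n) (y q) q (v i).toNat - (y q : ℝ) / Nat.totient q := ⟨_, rfl⟩
  obtain ⟨I, hI⟩ : ∃ I : ℕ → ℝ, I = fun q => ∑ i ∈ univ.filter (fun i => 0 < v i ∧ (v i).toNat.Coprime q), c i * F q i := ⟨_, rfl⟩
  obtain ⟨s, hs⟩ : ∃ s : ℕ → ℝ, s = fun q => if 0 ≤ I q then (q.divisors.card : ℝ) ^ T else -(q.divisors.card : ℝ) ^ T := ⟨_, rfl⟩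
  have hs1 : ∀ q, |s q| ≤ L ^ T * (q.divisors.card : ℝ) ^ T := by
    intro q
    have h0 : (0 : ℝ) ≤ (q.divisors.card : ℝ) ^ T := by positivity
    have h1 : |s q| = (q.divisors.card : ℝ) ^ T := by
      rw [hs]
      simp only
      split_ifs
      · exact abs_of_nonneg h0
      · rw [abs_neg, abs_of_nonneg h0]
    rw [h1]
    exact le_mul_of_one_le_left h0 (one_le_pow₀ hL1)
  have hsI : ∀ q, s q * I q = (q.divisors.card : ℝ) ^ T * |I q| := by
    intro q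
    rw [hs]
    simp only
    split_ifs with h
    · rw [abs_of_nonneg h]
    · rw [abs_of_neg (lt_of_not_ge h)]
      ring
  have k1 := (c0 s hs1 (fun _ => Q) (fun _ => hQ)).2 y hy
  have e1 : ∑ q ∈ Icc 1 Q, (q.divisors.card : ℝ) ^ T * |I q| = ∑ i ∈ univ.filter (fun i => 0 < v i), c i * WW s y Q (v i).toNat := by
    simp only [← hsI]
    rw [hI]
    unfold WW
    simp only [mul_sum, sum_filter]
    rw [sum_comm]
    apply sum_congr rfl
    intro i _
    by_cases h : 0 < v i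
    · rw [if_pos h]
      apply sum_congr rfl
      intro q _
      by_cases h2 : (v i).toNat.Coprime q
      · rw [if_pos ⟨h, h2⟩, if_pos h2, hF]
        ring
      · rw [if_neg (fun h' => h2 h'.2), if_neg h2]
        ring
    · rw [if_neg h]
      apply sum_eq_zero
      intro q _
      rw [if_neg (fun h' => h h'.1), mul_zero]
  have e2 : ∑ q ∈ Icc 1 Q, (q.divisors.card : ℝ) ^ T * |∑ i ∈ univ.filter (fun i => 0 < v i ∧ (v i).toNat.Coprime q),
      c i * (Fu (fun n => ArithmeticFunction.vonMangoldt n) (y q) q (v i).toNat - (y q : ℝ) / Nat.totient q)| =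
      ∑ q ∈ Icc 1 Q, (q.divisors.card : ℝ) ^ T * |I q| := by
    rw [hI, hF]
  rw [e2, e1]
  calc ∑ i ∈ univ.filter (fun i => 0 < v i), c i * WW s y Q (v i).toNat
      ≤ ∑ i ∈ univ.filter (fun i => 0 < v i), L ^ T * |WW s y Q (v i).toNat| := by
        apply sum_le_sum
        intro i _
        refine (le_abs_self _).trans ?_
        rw [abs_mul]
        exact mul_le_mul_of_nonneg_right (hc i) (abs_nonneg _)
    _ = L ^ T * ∑ i ∈ univ.filter (fun i => 0 < v i), |WW s y Q (v i).toNat| := by rw [mul_sum]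
    _ ≤ L ^ T * (N * Fintype.card ι / L ^ (U + T)) := mul_le_mul_of_nonneg_left k1 (by positivity)
    _ = _ := by rw [pow_add]; field_simp

end Pool.Agent.V7H38.EH
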