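import Pool.Agent.H373R2.T7.BilF

set_option autoImplicit false

/-! Second moments along a family of integers with few large Fourier coefficients. -/

namespace Pool.Agent.V7H38.EH
open Finset
open Pool.Agent.H807R2.Dav
open Pool.Agent.H373R2.T7 (orth conj_ee parseval_Icc fz)

/-- the Fourier coefficient of a family of integers at `t / M` -/
noncomputable def FC {ι : Type} [Fintype ι] (M : ℕ) (v : ι → ℤ) (t : ℤ) : ℂ := ∑ i, ee ((t : ℝ) * ((v i : ℝ) / M))

lemma FC_le {ι : Type} [Fintype ι] (M : ℕ) (v : ι → ℤ) (t : ℤ) : ‖FC M v t‖ ≤ Fintype.card ι := by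
  unfold FC
  refine (norm_sum_le _ _).trans ?_
  simp only [norm_ee, sum_const, card_univ, nsmul_eq_mul, mul_one]
  exact le_rfl

/-- periodicity -/
lemma FC_mod {ι : Type} [Fintype ι] (M : ℕ) (hM : 1 ≤ M) (v : ι → ℤ) (t : ℤ) : FC M v (t % M) = FC M v t := by
  have hM0 : (M : ℝ) ≠ 0 := by
    have : (0 : ℝ) < M := by exact_mod_cast hM
    exact this.ne'
  unfold FC
  apply sum_congr rfl
  intro i _
  have h1 : (t : ℝ) * ((v i : ℝ) / M) = ((t % M : ℤ) : ℝ) * ((v i : ℝ) / M) + ((t / M * v i : ℤ) : ℝ) := by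
    have h2 : (t : ℝ) = ((t % M : ℤ) : ℝ) + (M : ℝ) * ((t / M : ℤ) : ℝ) := by
      exact_mod_cast (Int.emod_add_mul_ediv t M).symm
    rw [h2]
    push_cast
    field_simp
  rw [h1, ee_add, ee_int, mul_one]

/-- translation changes only the argument -/
lemma FC_add {ι : Type} [Fintype ι] (M : ℕ) (v : ι → ℤ) (c : ℤ) (t : ℤ) :
    ‖FC M (fun i => v i + c) t‖ = ‖FC M v t‖ := by
  unfold FC
  have h1 : ∀ i, ee ((t : ℝ) * (((v i + c : ℤ) : ℝ) / M)) = ee ((t : ℝ) * ((c : ℝ) / M)) * ee ((t : ℝ) * ((v i : ℝ) / M)) := by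
    intro i
    rw [← ee_add]
    congr 1
    push_cast
    ring
  simp only [h1]
  rw [← mul_sum, norm_mul, norm_ee, one_mul]

/-- the second moment over a family with few large Fourier coefficients -/
theorem bil_spec {ι : Type} [Fintype ι] (A H M : ℕ) (hM1 : 1 ≤ M) (f G : ℕ → ℂ) (v : ι → ℤ) (δ η K W : ℝ)
    (hM : ∀ a ∈ Icc 1 A, ∀ i, ∀ n ∈ Icc 1 H, |(a : ℤ) + v i - n| < M) (hAM : A ≤ M) (hHM : H ≤ M)
    (hf : ∀ α : ℝ, ‖∑ n ∈ Icc 1 H, f n * ee ((n : ℝ) * α)‖ ≤ δ)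
    (hG : ∀ a, ‖G a‖ ≤ 1)
    (hfs : ∑ n ∈ Icc 1 H, ‖f n‖ ^ 2 ≤ W) (hη : 0 ≤ η)
    (hK : (((range M).filter (fun t : ℕ => η * Fintype.card ι < ‖FC M v t‖)).card : ℝ) ≤ K) :
    ∑ i, ‖∑ a ∈ Icc 1 A, G a * fz f H (a + v i)‖ ^ 2 ≤
      Fintype.card ι * (η * (W * A) + K * δ * Real.sqrt (W * A)) := by
  classical
  have hM0 : (0 : ℝ) < M := by exact_mod_cast hM1
  have hδ : 0 ≤ δ := (norm_nonneg _).trans (hf 0)
  set fh : ℕ → ℂ := fun t => ∑ n ∈ Icc 1 H, f n * ee ((t : ℝ) * ((((-1 : ℤ) * n : ℤ) : ℝ) / M)) with hfh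
  set Gh : ℕ → ℂ := fun t => ∑ a ∈ Icc 1 A, G a * ee ((t : ℝ) * ((((1 : ℤ) * a : ℤ) : ℝ) / M)) with hGh
  set F : ι → ℂ := fun i => ∑ a ∈ Icc 1 A, G a * fz f H (a + v i) with hF
  -- the Fourier identity
  have hid : ∀ i, (M : ℂ) * F i = ∑ t ∈ range M, fh t * Gh t * ee ((t : ℝ) * ((v i : ℝ) / M)) := by
    intro i
    have h1 : ∀ t ∈ range M, fh t * Gh t * ee ((t : ℝ) * ((v i : ℝ) / M)) = ∑ a ∈ Icc 1 A, ∑ n ∈ Icc 1 H,
        G a * f n * ee ((t : ℝ) * ((((a : ℤ) + v i - n : ℤ) : ℝ) / M)) := by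
      intro t _
      rw [hfh, hGh]
      simp only
      rw [mul_comm (∑ n ∈ Icc 1 H, _) (∑ a ∈ Icc 1 A, _), sum_mul_sum, sum_mul]
      apply sum_congr rfl
      intro a _
      rw [sum_mul]
      apply sum_congr rfl
      intro n _
      have h2 : ee ((t : ℝ) * ((((a : ℤ) + v i - n : ℤ) : ℝ) / M)) =
          ee ((t : ℝ) * ((((1 : ℤ) * a : ℤ) : ℝ) / M)) * ee ((t : ℝ) * ((((-1 : ℤ) * n : ℤ) : ℝ) / M)) * ee ((t : ℝ) * ((v i : ℝ) / M)) := by
        rw [← ee_add, ← ee_add]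
        congr 1
        push_cast
        ring
      rw [h2]
      ring
    rw [sum_congr rfl h1]
    symm
    rw [sum_comm, hF]
    simp only
    rw [mul_sum]
    apply sum_congr rfl
    intro a ha
    rw [sum_comm]
    have h2 : ∀ n ∈ Icc 1 H, ∑ t ∈ range M, G a * f n * ee ((t : ℝ) * ((((a : ℤ) + v i - n : ℤ) : ℝ) / M)) =
        if (n : ℤ) = a + v i then (M : ℂ) * (G a * f n) else 0 := by
      intro n hn
      rw [← mul_sum, orth M hM1]
      by_cases h3 : (n : ℤ) = a + v i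
      · rw [if_pos h3, if_pos (by rw [h3]; simp)]
        ring
      · rw [if_neg h3, if_neg, mul_zero]
        intro hd
        apply h3
        have := Int.eq_zero_of_abs_lt_dvd hd (hM a ha i n hn)
        omega
    rw [sum_congr rfl h2]
    unfold fz
    by_cases h3 : 1 ≤ (a : ℤ) + v i ∧ (a : ℤ) + v i ≤ H
    · rw [if_pos h3, sum_eq_single ((a : ℤ) + v i).toNat]
      · rw [if_pos (by rw [Int.toNat_of_nonneg (by omega)])]
      · intro n _ hne
        rw [if_neg]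
        intro h4
        apply hne
        omega
      · intro h4
        exfalso
        apply h4
        rw [mem_Icc]
        omega
    · rw [if_neg h3, mul_zero, mul_zero]
      apply sum_eq_zero
      intro n hn
      rw [mem_Icc] at hn
      rw [if_neg]
      omega
  -- bounds
  have hfh1 : ∀ t, ‖fh t‖ ≤ δ := by
    intro t
    have h1 : fh t = ∑ n ∈ Icc 1 H, f n * ee ((n : ℝ) * (-(t : ℝ) / M)) := by
      rw [hfh]
      apply sum_congr rfl
      intro n _
      congr 2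
      push_cast
      ring
    rw [h1]
    exact hf _
  have hGh1 : ∀ t, ‖Gh t‖ ≤ A := by
    intro t
    rw [hGh]
    refine (norm_sum_le _ _).trans ?_
    have : ∀ a ∈ Icc 1 A, ‖G a * ee ((t : ℝ) * ((((1 : ℤ) * a : ℤ) : ℝ) / M))‖ ≤ 1 := by
      intro a _
      rw [norm_mul, norm_ee, mul_one]
      exact hG a
    refine (sum_le_sum this).trans ?_
    rw [sum_const, Nat.card_Icc, nsmul_eq_mul]
    simp
  set P : ℕ → ℝ := fun t => ‖fh t‖ * ‖Gh t‖ with hP
  have hP0 : ∀ t, 0 ≤ P t := fun t => by rw [hP]; positivity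
  have hP1 : ∀ t, P t ≤ δ * A := by
    intro t
    rw [hP]
    exact mul_le_mul (hfh1 t) (hGh1 t) (norm_nonneg _) hδ
  have hW0 : 0 ≤ W := le_trans (sum_nonneg fun _ _ => by positivity) hfs
  have hP2 : ∑ t ∈ range M, P t ≤ M * Real.sqrt (W * A) := by
    have h1 := parseval_Icc H M hM1 hHM f (-1) (Or.inr rfl)
    have h2 := parseval_Icc A M hM1 hAM G 1 (Or.inl rfl)
    have h3 : ∑ a ∈ Icc 1 A, ‖G a‖ ^ 2 ≤ A := by
      have h4 : ∀ a ∈ Icc 1 A, ‖G a‖ ^ 2 ≤ 1 := fun a _ => pow_le_one₀ (norm_nonneg _) (hG a)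
      refine (sum_le_sum h4).trans ?_
      rw [sum_const, Nat.card_Icc, nsmul_eq_mul]
      simp
    have h4 : (∑ t ∈ range M, P t) ^ 2 ≤ (M * Real.sqrt (W * A)) ^ 2 := by
      calc (∑ t ∈ range M, P t) ^ 2 ≤ (∑ t ∈ range M, ‖fh t‖ ^ 2) * (∑ t ∈ range M, ‖Gh t‖ ^ 2) := by
            rw [hP]
            exact sum_mul_sq_le_sq_mul_sq _ _ _
        _ = (M * ∑ n ∈ Icc 1 H, ‖f n‖ ^ 2) * (M * ∑ a ∈ Icc 1 A, ‖G a‖ ^ 2) := by rw [← h1, ← h2]
        _ ≤ (M * W) * (M * A) := by gcongr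
        _ = (M * Real.sqrt (W * A)) ^ 2 := by
            rw [mul_pow, Real.sq_sqrt (by positivity)]
            ring
    exact le_of_sq_le_sq h4 (by positivity)
  -- the second moment
  set V : ℕ → ℕ → ℂ := fun t u => FC M v ((t : ℤ) - u) with hV
  set n0 : ℝ := (Fintype.card ι : ℝ) with hn0
  have hn00 : 0 ≤ n0 := Nat.cast_nonneg _
  set Bad := (range M).filter (fun t : ℕ => η * n0 < ‖FC M v t‖) with hBad
  have hsq : ((M ^ 2 * ∑ i, ‖F i‖ ^ 2 : ℝ) : ℂ) =
      ∑ t ∈ range M, ∑ u ∈ range M, (fh t * Gh t) * (starRingEnd ℂ) (fh u * Gh u) * V t u := by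
    have h1 : ∀ i, ((M : ℂ) * F i) * (starRingEnd ℂ) ((M : ℂ) * F i) = ∑ t ∈ range M, ∑ u ∈ range M,
        (fh t * Gh t) * (starRingEnd ℂ) (fh u * Gh u) * ee ((((t : ℤ) - u : ℤ) : ℝ) * ((v i : ℝ) / M)) := by
      intro i
      rw [hid i, map_sum, sum_mul_sum]
      apply sum_congr rfl
      intro t _
      apply sum_congr rfl
      intro u _
      rw [map_mul, conj_ee]
      have h2 : ee ((((t : ℤ) - u : ℤ) : ℝ) * ((v i : ℝ) / M)) = ee ((t : ℝ) * ((v i : ℝ) / M)) * ee (-((u : ℝ) * ((v i : ℝ) / M))) := by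
        rw [← ee_add]
        congr 1
        push_cast
        ring
      rw [h2]
      ring
    have h2 : ((M ^ 2 * ∑ i, ‖F i‖ ^ 2 : ℝ) : ℂ) = ∑ i, ((M : ℂ) * F i) * (starRingEnd ℂ) ((M : ℂ) * F i) := by
      push_cast
      rw [mul_sum]
      apply sum_congr rfl
      intro i _
      rw [Complex.mul_conj', norm_mul, Complex.norm_natCast]
      push_cast
      ring
    rw [h2, sum_congr rfl fun i _ => h1 i, sum_comm]
    apply sum_congr rfl
    intro t _
    rw [sum_comm]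
    apply sum_congr rfl
    intro u _
    rw [← mul_sum, hV]
    rfl
  have hVb : ∀ t u : ℕ, ‖V t u‖ ≤ n0 * (η + if (((t : ℤ) - u) % M).toNat ∈ Bad then 1 else 0) := by
    intro t u
    have hMz : (M : ℤ) ≠ 0 := by omega
    have h0 : 0 ≤ ((t : ℤ) - u) % M := Int.emod_nonneg _ hMz
    have h1 : ((t : ℤ) - u) % M < M := Int.emod_lt_of_pos _ (by omega)
    have h2 : V t u = FC M v ((((t : ℤ) - u) % M).toNat : ℤ) := by
      rw [Int.toNat_of_nonneg h0, FC_mod M hM1 v]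
    split_ifs with hb
    · have h3 := FC_le M v ((t : ℤ) - u)
      have h4 : 0 ≤ n0 * η := by positivity
      calc ‖V t u‖ ≤ n0 := h3
        _ ≤ n0 * (η + 1) := by nlinarith
    · rw [add_zero, h2]
      rw [hBad, mem_filter, mem_range] at hb
      have h5 : (((t : ℤ) - u) % M).toNat < M := by omega
      have h6 : ¬ (η * n0 < ‖FC M v ((((t : ℤ) - u) % M).toNat : ℤ)‖) := fun h => hb ⟨h5, h⟩
      rw [mul_comm]
      exact not_lt.1 h6
  have hcount : ∀ t ∈ range M, ∑ u ∈ range M, P u * (if (((t : ℤ) - u) % M).toNat ∈ Bad then (1 : ℝ) else 0) ≤ δ * A * K := by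
    intro t ht
    rw [mem_range] at ht
    have h1 : ∑ u ∈ range M, P u * (if (((t : ℤ) - u) % M).toNat ∈ Bad then (1 : ℝ) else 0) ≤
        ∑ u ∈ (range M).filter (fun u : ℕ => (((t : ℤ) - u) % M).toNat ∈ Bad), δ * A := by
      rw [sum_filter]
      apply sum_le_sum
      intro u _
      split_ifs
      · rw [mul_one]; exact hP1 u
      · rw [mul_zero]
    refine h1.trans ?_
    rw [sum_const, nsmul_eq_mul, mul_comm]
    apply mul_le_mul_of_nonneg_left _ (by positivity)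
    refine le_trans ?_ hK
    obtain ⟨g, hg⟩ : ∃ g : ℕ → ℕ, g = fun u : ℕ => (((t : ℤ) - u) % M).toNat := ⟨_, rfl⟩
    have hgu : ∀ u : ℕ, g u = (((t : ℤ) - u) % M).toNat := fun u => by rw [hg]
    have hmaps : ∀ u ∈ (range M).filter (fun u : ℕ => (((t : ℤ) - u) % M).toNat ∈ Bad), g u ∈ Bad := by
      intro u hu
      rw [mem_filter] at hu
      rw [hgu]
      exact hu.2
    have hinj : ∀ u ∈ (range M).filter (fun u : ℕ => (((t : ℤ) - u) % M).toNat ∈ Bad),
        ∀ u' ∈ (range M).filter (fun u : ℕ => (((t : ℤ) - u) % M).toNat ∈ Bad), g u = g u' → u = u' := by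
      intro u hu u' hu' h
      have hu1 := mem_range.1 (mem_filter.1 hu).1
      have hu2 := mem_range.1 (mem_filter.1 hu').1
      rw [hgu, hgu] at h
      have hMz : (M : ℤ) ≠ 0 := by omega
      have g0 : 0 ≤ ((t : ℤ) - u) % M := Int.emod_nonneg _ hMz
      have g1 : 0 ≤ ((t : ℤ) - u') % M := Int.emod_nonneg _ hMz
      have h2 : ((t : ℤ) - u) % M = ((t : ℤ) - u') % M := by omega
      have h3 : (M : ℤ) ∣ ((t : ℤ) - u') - ((t : ℤ) - u) := Int.ModEq.dvd h2
      have h4 : |((t : ℤ) - u') - ((t : ℤ) - u)| < M := by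
        rw [abs_lt]; constructor <;> omega
      have := Int.eq_zero_of_abs_lt_dvd h3 h4
      omega
    exact_mod_cast card_le_card_of_injOn g (fun u hu => mem_coe.2 (hmaps u (mem_coe.1 hu)))
      (fun u hu u' hu' h => hinj u (mem_coe.1 hu) u' (mem_coe.1 hu') h)
  have hmain : M ^ 2 * ∑ i, ‖F i‖ ^ 2 ≤ n0 * (η * (M * Real.sqrt (W * A)) ^ 2 + (M * Real.sqrt (W * A)) * (δ * A * K)) := by
    have h0 : (0 : ℝ) ≤ M ^ 2 * ∑ i, ‖F i‖ ^ 2 := by positivity
    have h1 : M ^ 2 * ∑ i, ‖F i‖ ^ 2 = ‖((M ^ 2 * ∑ i, ‖F i‖ ^ 2 : ℝ) : ℂ)‖ := by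
      rw [Complex.norm_real, Real.norm_of_nonneg h0]
    rw [h1, hsq]
    calc ‖∑ t ∈ range M, ∑ u ∈ range M, (fh t * Gh t) * (starRingEnd ℂ) (fh u * Gh u) * V t u‖
        ≤ ∑ t ∈ range M, ∑ u ∈ range M, P t * P u * (n0 * (η + if (((t : ℤ) - u) % M).toNat ∈ Bad then 1 else 0)) := by
          refine (norm_sum_le _ _).trans (sum_le_sum fun t _ => ?_)
          refine (norm_sum_le _ _).trans (sum_le_sum fun u _ => ?_)
          rw [norm_mul, norm_mul, RCLike.norm_conj, norm_mul, norm_mul]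
          exact mul_le_mul_of_nonneg_left (hVb t u) (mul_nonneg (hP0 t) (hP0 u))
      _ = n0 * (η * (∑ t ∈ range M, P t) ^ 2 + ∑ t ∈ range M, P t * ∑ u ∈ range M, P u *
            (if (((t : ℤ) - u) % M).toNat ∈ Bad then (1 : ℝ) else 0)) := by
          rw [pow_two, sum_mul_sum]
          simp only [mul_sum, mul_add]
          rw [← sum_add_distrib]
          apply sum_congr rfl
          intro t _
          rw [← sum_add_distrib]
          apply sum_congr rfl
          intro u _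
          ring
      _ ≤ _ := by
          apply mul_le_mul_of_nonneg_left _ hn00
          have hS0 : 0 ≤ ∑ t ∈ range M, P t := sum_nonneg fun t _ => hP0 t
          have hKδ : 0 ≤ δ * A * K := by
            have : 0 ≤ K := (Nat.cast_nonneg _).trans hK
            positivity
          apply add_le_add
          · apply mul_le_mul_of_nonneg_left _ hη
            exact pow_le_pow_left₀ hS0 hP2 2
          · calc ∑ t ∈ range M, P t * ∑ u ∈ range M, P u * (if (((t : ℤ) - u) % M).toNat ∈ Bad then (1 : ℝ) else 0)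
                ≤ ∑ t ∈ range M, P t * (δ * A * K) := sum_le_sum fun t ht => mul_le_mul_of_nonneg_left (hcount t ht) (hP0 t)
              _ = (∑ t ∈ range M, P t) * (δ * A * K) := by rw [sum_mul]
              _ ≤ _ := mul_le_mul_of_nonneg_right hP2 hKδ
  have hfin : M ^ 2 * ∑ i, ‖F i‖ ^ 2 ≤ M ^ 2 * (n0 * (η * (W * A) + K * δ * Real.sqrt (W * A))) := by
    refine hmain.trans ?_
    have h1 : (M * Real.sqrt (W * A)) ^ 2 = M ^ 2 * (W * A) := by rw [mul_pow, Real.sq_sqrt (by positivity)]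
    rw [h1]
    have hK0 : 0 ≤ K := (Nat.cast_nonneg _).trans hK
    have hAMr : (A : ℝ) ≤ M := by exact_mod_cast hAM
    have h2 : (M * Real.sqrt (W * A)) * (δ * A * K) ≤ M ^ 2 * (K * δ * Real.sqrt (W * A)) := by
      have h3 : 0 ≤ K * δ * Real.sqrt (W * A) * M := by positivity
      calc (M * Real.sqrt (W * A)) * (δ * A * K) = (K * δ * Real.sqrt (W * A) * M) * A := by ring
        _ ≤ (K * δ * Real.sqrt (W * A) * M) * M := mul_le_mul_of_nonneg_left hAMr h3
        _ = _ := by ring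
    calc n0 * (η * (M ^ 2 * (W * A)) + (M * Real.sqrt (W * A)) * (δ * A * K))
        ≤ n0 * (η * (M ^ 2 * (W * A)) + M ^ 2 * (K * δ * Real.sqrt (W * A))) :=
          mul_le_mul_of_nonneg_left (add_le_add le_rfl h2) hn00
      _ = _ := by ring
  exact le_of_mul_le_mul_left hfin (by positivity)

end Pool.Agent.V7H38.EH
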